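import Pool.Agent.MP_648617_ag.Defs
import Mathlib.RingTheory.MvPowerSeries.Equiv
import Mathlib.RingTheory.MvPowerSeries.Inverse
import Mathlib.RingTheory.AdicCompletion.RingHom
import Mathlib.RingTheory.Flat.EquationalCriterion
import Mathlib.RingTheory.LaurentSeries
import Mathlib.RingTheory.AdicCompletion.AsTensorProduct
import Mathlib.RingTheory.TensorProduct.Quotient
import Mathlib.RingTheory.PowerSeries.WeierstrassPreparation

-- ======== part 0: formerly Pool.Agent.MP_648617_ag.vers.Germ
section MrgPart0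

/-! Germs: local maps, power series rings, quotients, evaluation. -/

open IsLocalRing

noncomputable section

namespace Pool.Agent.MP_648617_ag.Vers

section Basic

variable {R S : Type} [CommRing R] [Algebra ℂ R] [IsGerm R] [CommRing S] [Algebra ℂ S] [IsGerm S]

theorem map_max (φ : R →ₐ[ℂ] S) {r : R} (hr : r ∈ maximalIdeal R) : φ r ∈ maximalIdeal S := by
  obtain ⟨c, hc⟩ := IsGerm.res (φ r)
  by_cases h0 : c = 0
  · simpa [h0] using hc
  · exfalso
    have hu : IsUnit (r - algebraMap ℂ R c) := by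
      by_contra hn
      have h1 : r - algebraMap ℂ R c ∈ maximalIdeal R := hn
      have h2 : algebraMap ℂ R c ∈ maximalIdeal R := by
        simpa using (maximalIdeal R).sub_mem hr h1
      exact h2 ((IsUnit.mk0 c h0).map _)
    have := hu.map φ
    rw [map_sub, AlgHom.commutes] at this
    exact hc this

theorem map_pow_max (φ : R →ₐ[ℂ] S) (n : ℕ) {r : R} (hr : r ∈ maximalIdeal R ^ n) :
    φ r ∈ maximalIdeal S ^ n := by
  have h : (maximalIdeal R).map φ ≤ maximalIdeal S :=
    Ideal.map_le_iff_le_comap.2 fun x hx => map_max φ hx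
  have h2 := Ideal.mem_map_of_mem φ hr
  rw [Ideal.map_pow] at h2
  exact Ideal.pow_right_mono h n h2

theorem krull {a : R} (h : ∀ n, a ∈ maximalIdeal R ^ n) : a = 0 := by
  have := Ideal.iInf_pow_eq_bot_of_isLocalRing (maximalIdeal R) (maximalIdeal.isMaximal R).ne_top
  rw [← Ideal.mem_bot, ← this, Ideal.mem_iInf]
  exact h

theorem lim (a : ℕ → R) (h : ∀ n, a (n + 1) - a n ∈ maximalIdeal R ^ n) :
    ∃ L, ∀ n, L - a n ∈ maximalIdeal R ^ n := by
  have h1 : ∀ n, a n ≡ a (n + 1) [SMOD (maximalIdeal R ^ n • ⊤ : Submodule R R)] := fun n => by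
    rw [SModEq.sub_mem, smul_eq_mul, Ideal.mul_top]
    simpa using (maximalIdeal R ^ n).neg_mem (h n)
  obtain ⟨L, hL⟩ := IsPrecomplete.prec' (I := maximalIdeal R) a fun {m n} hmn => by
    induction hmn with
    | refl => exact SModEq.refl _
    | step hle ih =>
      exact ih.trans ((h1 _).mono (Submodule.smul_mono_left (Ideal.pow_le_pow_right hle)))
  refine ⟨L, fun n => ?_⟩
  have := hL n
  rw [SModEq.sub_mem, smul_eq_mul, Ideal.mul_top] at this
  simpa using (maximalIdeal R ^ n).neg_mem this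

theorem closed (J : Ideal R) {a : R} (h : ∀ n, a ∈ J ⊔ maximalIdeal R ^ n) : a ∈ J := by
  rw [← Ideal.Quotient.eq_zero_iff_mem]
  refine IsHausdorff.haus' (I := maximalIdeal R) (M := R ⧸ J) _ fun n => ?_
  obtain ⟨x, hx, y, hy, rfl⟩ := Submodule.mem_sup.1 (h n)
  rw [SModEq.zero, map_add, Ideal.Quotient.eq_zero_iff_mem.2 hx, zero_add]
  have : Ideal.Quotient.mk J y = y • (1 : R ⧸ J) := by
    rw [Algebra.smul_def, mul_one]; rfl
  rw [this]
  exact Submodule.smul_mem_smul hy trivial

theorem germ_of_surj {Q : Type} [CommRing Q] [Algebra ℂ Q] [Nontrivial Q] (φ : R →ₐ[ℂ] Q)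
    (hφ : Function.Surjective φ) : IsGerm Q := by
  have : IsLocalRing Q := IsLocalRing.of_surjective' φ.toRingHom hφ
  have : IsNoetherianRing Q := isNoetherianRing_of_surjective R Q φ.toRingHom hφ
  have hm : (maximalIdeal R).map φ = maximalIdeal Q := map_maximalIdeal_of_surjective φ.toRingHom hφ
  have hp : ∀ n, (maximalIdeal R ^ n).map φ = maximalIdeal Q ^ n := fun n => by
    rw [Ideal.map_pow, hm]
  refine { complete := { prec' := fun a ha => ?_ }, res := fun q => ?_ }
  · have h1 : ∀ n, ∃ b ∈ maximalIdeal R ^ n, φ b = a (n + 1) - a n := fun n => by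
      have := (ha (Nat.le_succ n)).symm
      rw [SModEq.sub_mem, smul_eq_mul, Ideal.mul_top, ← hp] at this
      exact (Ideal.mem_map_iff_of_surjective φ hφ).1 this
    choose b hb hb' using h1
    obtain ⟨b0, hb0⟩ := hφ (a 0)
    obtain ⟨L, hL⟩ := lim (fun n => b0 + ∑ i ∈ Finset.range n, b i) fun n => by
      simpa [Finset.sum_range_succ] using hb n
    refine ⟨φ L, fun n => ?_⟩
    have h2 : φ (b0 + ∑ i ∈ Finset.range n, b i) = a n := by
      rw [map_add, map_sum, hb0]
      simp only [hb', Finset.sum_range_sub]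
      ring
    rw [SModEq.sub_mem, smul_eq_mul, Ideal.mul_top, ← hp, ← h2, ← map_sub]
    exact Ideal.mem_map_of_mem φ (by simpa using (maximalIdeal R ^ n).neg_mem (hL n))
  · obtain ⟨r, rfl⟩ := hφ q
    obtain ⟨c, hc⟩ := IsGerm.res r
    refine ⟨c, ?_⟩
    rw [← hm, ← φ.commutes, ← map_sub]
    exact Ideal.mem_map_of_mem φ hc

end Basic

section Mv

open MvPowerSeries

variable {σ R : Type} [CommRing R]

theorem mem_span_mono (E : Finset (σ →₀ ℕ)) (F : MvPowerSeries σ R)
    (h : ∀ d, coeff d F ≠ 0 → ∃ e ∈ E, e ≤ d) :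
    F ∈ Ideal.span ((fun e => monomial e (1 : R)) '' (E : Set (σ →₀ ℕ))) := by
  classical
  choose! ch hch using h
  let G : (σ →₀ ℕ) → MvPowerSeries σ R := fun e d =>
    if ch (e + d) = e then coeff (e + d) F else 0
  have : F = ∑ e ∈ E, monomial e (1 : R) * G e := by
    ext d
    rw [map_sum]
    have h1 : ∀ e, coeff d (monomial e (1 : R) * G e) = if ch d = e ∧ e ≤ d then coeff d F else 0 := by
      intro e
      rw [coeff_monomial_mul]
      by_cases hle : e ≤ d
      · have : coeff (d - e) (G e) = if ch (e + (d - e)) = e then coeff (e + (d - e)) F else 0 := rfl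
        rw [if_pos hle, this, add_tsub_cancel_of_le hle]
        simp [hle]
      · simp [hle]
    simp only [h1]
    by_cases h0 : coeff d F = 0
    · simp [h0]
    · rw [Finset.sum_eq_single (ch d)]
      · simp [(hch d h0).2]
      · intro e _ hne; simp [hne.symm]
      · intro hn; exact absurd (hch d h0).1 hn
  rw [this]
  exact Ideal.sum_mem _ fun e he => Ideal.mul_mem_right _ _ (Ideal.subset_span ⟨e, he, rfl⟩)

theorem mono_mem (I : Ideal (MvPowerSeries σ R)) (hX : ∀ k, X k ∈ I) (e : σ →₀ ℕ) :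
    monomial e (1 : R) ∈ I ^ e.degree := by
  induction e using Finsupp.induction_linear with
  | zero => simp
  | add f g hf hg =>
    rw [map_add, pow_add, ← mul_one (1 : R), ← monomial_mul_monomial]
    exact Ideal.mul_mem_mul hf hg
  | single k n =>
    rw [← X_pow_eq, Finsupp.degree_single]
    exact Ideal.pow_mem_pow (hX k) n

theorem tail_mem [Finite σ] (I : Ideal (MvPowerSeries σ R)) (hX : ∀ k, X k ∈ I) (n : ℕ)
    (F : MvPowerSeries σ R) (h : ∀ d : σ →₀ ℕ, d.degree < n → coeff d F = 0) : F ∈ I ^ n := by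
  have hfin : {e : σ →₀ ℕ | e.degree = n}.Finite :=
    (Finsupp.finite_of_degree_le n).subset fun e he => le_of_eq he
  refine Ideal.span_le.2 ?_ (mem_span_mono hfin.toFinset F fun d hd => ?_)
  · rintro _ ⟨e, he, rfl⟩
    have he' : e.degree = n := by simpa using he
    rw [← he']
    exact mono_mem I hX e
  · have hn : n ≤ d.degree := by
      by_contra hlt
      exact hd (h d (not_le.1 hlt))
    obtain ⟨e, he, he'⟩ := Finsupp.exists_le_degree_eq d n hn
    exact ⟨e, by simpa using he', he⟩

theorem sub_trunc_mem [Finite σ] (I : Ideal (MvPowerSeries σ R)) (hX : ∀ k, X k ∈ I) (n : ℕ)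
    (F : MvPowerSeries σ R) : F - (truncTotal n F : MvPolynomial σ R) ∈ I ^ n :=
  tail_mem I hX n _ fun d hd => by
    rw [map_sub, MvPolynomial.coeff_coe, coeff_truncTotal _ hd, sub_self]

variable [Algebra ℂ R] [IsGerm R]

theorem mem_max_mv {F : MvPowerSeries σ R} :
    F ∈ maximalIdeal (MvPowerSeries σ R) ↔ constantCoeff F ∈ maximalIdeal R := by
  simp only [mem_maximalIdeal, mem_nonunits_iff, isUnit_iff_constantCoeff]

theorem coeff_mem_pow (n : ℕ) {F : MvPowerSeries σ R}
    (hF : F ∈ maximalIdeal (MvPowerSeries σ R) ^ n) (d : σ →₀ ℕ) :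
    coeff d F ∈ maximalIdeal R ^ (n - d.degree) := by
  classical
  induction n generalizing F d with
  | zero => simp
  | succ n ih =>
    rw [pow_succ] at hF
    refine Submodule.mul_induction_on hF (fun a ha b hb => ?_) (fun a b ha hb => ?_)
    · rw [coeff_mul]
      refine Ideal.sum_mem _ fun p hp => ?_
      have hp' : p.1 + p.2 = d := by simpa using hp
      by_cases h2 : p.2 = 0
      · have h1 : p.1 = d := by simpa [h2] using hp'
        have h3 : coeff p.2 b ∈ maximalIdeal R := by
          rw [h2, coeff_zero_eq_constantCoeff_apply]; exact mem_max_mv.1 hb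
        have h4 := Ideal.mul_mem_mul (ih ha p.1) h3
        rw [← pow_succ, h1] at h4
        rw [h1]
        exact Ideal.pow_le_pow_right (by omega) h4
      · have h3 : p.2.degree ≠ 0 := by rwa [Ne, Finsupp.degree_eq_zero_iff]
        have h4 : d.degree = p.1.degree + p.2.degree := by rw [← hp', map_add]
        exact Ideal.mul_mem_right _ _ (Ideal.pow_le_pow_right (by omega) (ih ha p.1))
    · rw [map_add]; exact Ideal.add_mem _ ha hb

theorem mem_pow_of_coeff [Finite σ] (n : ℕ) {F : MvPowerSeries σ R}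
    (h : ∀ d : σ →₀ ℕ, coeff d F ∈ maximalIdeal R ^ (n - d.degree)) :
    F ∈ maximalIdeal (MvPowerSeries σ R) ^ n := by
  have hX : ∀ k, X k ∈ maximalIdeal (MvPowerSeries σ R) := fun k => mem_max_mv.2 (by simp)
  have h1 := sub_trunc_mem _ hX n F
  have h2 : ((truncTotal n F : MvPolynomial σ R) : MvPowerSeries σ R) ∈
      maximalIdeal (MvPowerSeries σ R) ^ n := by
    rw [(truncTotal n F).as_sum, ← MvPolynomial.coeToMvPowerSeries.ringHom_apply, map_sum]
    refine Ideal.sum_mem _ fun d _ => ?_
    rw [MvPolynomial.coeToMvPowerSeries.ringHom_apply, MvPolynomial.coe_monomial,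
      coeff_truncTotal_eq_ite]
    split_ifs with hd
    · have hC : (maximalIdeal R).map (C (σ := σ)) ≤ maximalIdeal (MvPowerSeries σ R) :=
        Ideal.map_le_iff_le_comap.2 fun x hx => mem_max_mv.2 (by simpa using hx)
      have h3 := Ideal.mem_map_of_mem (C (σ := σ)) (h d)
      rw [Ideal.map_pow] at h3
      have h4 := Ideal.mul_mem_mul (Ideal.pow_right_mono hC _ h3) (mono_mem _ hX d)
      rw [← pow_add, Nat.sub_add_cancel hd.le, ← monomial_zero_eq_C_apply, monomial_mul_monomial,
        zero_add, mul_one] at h4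
      exact h4
    · simp
  simpa using Ideal.add_mem _ h1 h2

theorem prec_mv [Finite σ] :
    IsPrecomplete (maximalIdeal (MvPowerSeries σ R)) (MvPowerSeries σ R) where
  prec' := fun a ha => by
    have h1 : ∀ {m n}, m ≤ n → a m - a n ∈ maximalIdeal (MvPowerSeries σ R) ^ m := fun hmn => by
      have := ha hmn
      rwa [SModEq.sub_mem, smul_eq_mul, Ideal.mul_top] at this
    have h2 : ∀ d : σ →₀ ℕ, ∃ L, ∀ n, L - coeff d (a (n + d.degree)) ∈ maximalIdeal R ^ n :=
      fun d => lim _ fun n => by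
        have := coeff_mem_pow _ (h1 (show n + d.degree ≤ n + 1 + d.degree by omega)) d
        rw [Nat.add_sub_cancel, map_sub] at this
        simpa using (maximalIdeal R ^ n).neg_mem this
    choose L hL using h2
    refine ⟨L, fun n => ?_⟩
    rw [SModEq.sub_mem, smul_eq_mul, Ideal.mul_top]
    refine mem_pow_of_coeff n fun d => ?_
    have h3 := coeff_mem_pow _ (h1 (show n ≤ n + d.degree by omega)) d
    have h4 := Ideal.pow_le_pow_right (Nat.sub_le n d.degree) (hL d n)
    have h5 : coeff d (L : MvPowerSeries σ R) = L d := rfl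
    rw [map_sub] at h3 ⊢
    rw [h5]
    simpa using Ideal.sub_mem _ h3 h4

instance germMv [Finite σ] : IsGerm (MvPowerSeries σ R) where
  complete := { toIsPrecomplete := prec_mv }
  res F := by
    obtain ⟨c, hc⟩ := IsGerm.res (constantCoeff F)
    refine ⟨c, mem_max_mv.2 ?_⟩
    rw [map_sub, MvPowerSeries.algebraMap_apply, constantCoeff_C]
    exact hc

instance germPS : IsGerm (PowerSeries R) := germMv (σ := Unit)

end Mv

section Eval

open MvPowerSeries

variable {σ R O : Type} [Finite σ] [CommRing R] [CommRing O] [Algebra ℂ O] [IsGerm O] [Algebra R O]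

theorem aeval_mem (e : σ → O) (he : ∀ k, e k ∈ maximalIdeal O) (n : ℕ) {p : MvPolynomial σ R}
    (hp : p ∈ MvPolynomial.idealOfVars σ R ^ n) : MvPolynomial.aeval e p ∈ maximalIdeal O ^ n := by
  have h : (MvPolynomial.idealOfVars σ R).map (MvPolynomial.aeval (R := R) e) ≤ maximalIdeal O := by
    rw [Ideal.map_span, Ideal.span_le]
    rintro _ ⟨_, ⟨k, rfl⟩, rfl⟩
    simpa using he k
  have h2 := Ideal.mem_map_of_mem (MvPolynomial.aeval (R := R) e) hp
  rw [Ideal.map_pow] at h2
  exact Ideal.pow_right_mono h n h2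

theorem exists_ev (e : σ → O) (he : ∀ k, e k ∈ maximalIdeal O) :
    ∃ φ : MvPowerSeries σ R →ₐ[R] O, ∀ k, φ (X k) = e k := by
  let g : ∀ n : ℕ, (MvPolynomial σ R ⧸ MvPolynomial.idealOfVars σ R ^ n) →ₐ[R]
      O ⧸ maximalIdeal O ^ n := fun n =>
    Ideal.Quotient.liftₐ _ ((Ideal.Quotient.mkₐ R _).comp (MvPolynomial.aeval e)) fun p hp =>
      Ideal.Quotient.eq_zero_iff_mem.2 (aeval_mem e he n hp)
  let f : ∀ n : ℕ, MvPowerSeries σ R →ₐ[R] O ⧸ maximalIdeal O ^ n := fun n =>
    (g n).comp ((truncTotalAlgHom σ R n).restrictScalars R)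
  have hf : ∀ n p, f n p = Ideal.Quotient.mk _ (MvPolynomial.aeval e (truncTotal n p)) :=
    fun n p => rfl
  have hc : ∀ {m n : ℕ} (hle : m ≤ n),
      (Ideal.Quotient.factorₐ R (Ideal.pow_le_pow_right hle)).comp (f n) = f m := by
    intro m n hle
    ext p
    rw [AlgHom.comp_apply, hf, hf]
    change Ideal.Quotient.mk _ _ = _
    rw [Ideal.Quotient.eq, ← map_sub]
    exact aeval_mem e he m (truncTotal_sub_truncTotal_mem_pow_idealOfVars hle le_rfl p)
  refine ⟨IsAdicComplete.liftAlgHom (maximalIdeal O) f hc, fun k => ?_⟩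
  rw [← sub_eq_zero]
  refine krull fun n => ?_
  rw [← Ideal.Quotient.eq, IsAdicComplete.mk_liftAlgHom, ← MvPolynomial.coe_X]
  have := (truncTotalAlgHom σ R n).commutes (MvPolynomial.X k)
  change g n (truncTotalAlgHom σ R n (algebraMap _ _ (MvPolynomial.X k : MvPolynomial σ R))) = _
  rw [this]
  change Ideal.Quotient.mk _ (MvPolynomial.aeval e (MvPolynomial.X k : MvPolynomial σ R)) = _
  rw [MvPolynomial.aeval_X]

omit [Algebra R O] in
theorem hom_ext (φ ψ : MvPowerSeries σ R →+* O) (hC : ∀ r, φ (C r) = ψ (C r))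
    (hX : ∀ k, φ (X k) = ψ (X k)) (hm : ∀ k, φ (X k) ∈ maximalIdeal O) : φ = ψ := by
  ext F
  rw [← sub_eq_zero]
  refine krull fun n => ?_
  have hp : ∀ p : MvPolynomial σ R, φ p = ψ p := fun p => by
    induction p using MvPolynomial.induction_on with
    | C r => simpa using hC r
    | add p q hp hq => simp [hp, hq]
    | mul_X p k hp => simp [hp, hX]
  have h1 : ∀ χ : MvPowerSeries σ R →+* O, (∀ k, χ (X k) ∈ maximalIdeal O) →
      χ F - χ (truncTotal n F : MvPolynomial σ R) ∈ maximalIdeal O ^ n := fun χ hχ => by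
    have h2 := sub_trunc_mem ((maximalIdeal O).comap χ) hχ n F
    rw [← map_sub]
    exact Ideal.le_comap_pow _ n h2
  have := Ideal.sub_mem _ (h1 φ hm) (h1 ψ fun k => hX k ▸ hm k)
  rw [hp] at this
  simpa using this

end Eval

end Pool.Agent.MP_648617_ag.Vers

end
end MrgPart0

-- ======== part 1: formerly Pool.Agent.MP_648617_ag.vers.Axes
section MrgPart1

/-! Coordinates along the axes. -/

open IsLocalRing PowerSeries

noncomputable section

namespace Pool.Agent.MP_648617_ag.Vers

section Mod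

variable {R : Type} [CommRing R]

theorem mem_span_smul {N : Type} [AddCommGroup N] [Module R N] {k : ℕ} (s : Fin k → R) {n : N}
    (h : n ∈ (Ideal.span (Set.range s) • ⊤ : Submodule R N)) : ∃ y : Fin k → N, n = ∑ a, s a • y a := by
  refine Submodule.smul_induction_on h (fun r hr x _ => ?_) ?_
  · obtain ⟨c, rfl⟩ := Ideal.mem_span_range_iff_exists_fun.1 hr
    exact ⟨fun a => c a • x, by simp [Finset.sum_smul, smul_smul, mul_comm]⟩
  · rintro _ _ ⟨y, rfl⟩ ⟨y', rfl⟩
    exact ⟨y + y', by simp [Finset.sum_add_distrib]⟩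

theorem pi_mem [IsNoetherianRing R] {I N : Type} [AddCommGroup N] [Module R N] (a : Ideal R)
    (f : I → N) (h : ∀ i, f i ∈ (a • ⊤ : Submodule R N)) : f ∈ (a • ⊤ : Submodule R (I → N)) := by
  obtain ⟨k, s, rfl⟩ := Submodule.fg_iff_exists_fin_generating_family.1 (IsNoetherian.noetherian a)
  choose y hy using fun i => mem_span_smul s (h i)
  have : f = ∑ a, s a • fun i => y i a := by
    funext i; simpa [Finset.sum_apply] using hy i
  rw [this]
  exact Submodule.sum_mem _ fun a _ => Submodule.smul_mem_smul (Ideal.subset_span ⟨a, rfl⟩) trivial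

theorem map_mem_smul {M N : Type} [AddCommGroup M] [Module R M] [AddCommGroup N] [Module R N]
    (f : M →ₗ[R] N) {a : Ideal R} {v : M} (h : v ∈ (a • ⊤ : Submodule R M)) :
    f v ∈ (a • ⊤ : Submodule R N) := by
  refine Submodule.smul_induction_on h (fun r hr x _ => ?_) fun x y hx hy => ?_
  · rw [map_smul]; exact Submodule.smul_mem_smul hr trivial
  · rw [map_add]; exact Submodule.add_mem _ hx hy

theorem prod_mem {M N : Type} [AddCommGroup M] [Module R M] [AddCommGroup N] [Module R N]
    {a : Ideal R} {v : M × N} (h1 : v.1 ∈ (a • ⊤ : Submodule R M))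
    (h2 : v.2 ∈ (a • ⊤ : Submodule R N)) : v ∈ (a • ⊤ : Submodule R (M × N)) := by
  have := Submodule.add_mem _ (map_mem_smul (LinearMap.inl R M N) h1)
    (map_mem_smul (LinearMap.inr R M N) h2)
  simpa using this

theorem ps_mem [IsNoetherianRing R] {N : Type} [CommRing N] [Module R N] (a : Ideal R)
    (f : N⟦X⟧) (h : ∀ j, coeff j f ∈ (a • ⊤ : Submodule R N)) :
    f ∈ (a • ⊤ : Submodule R N⟦X⟧) :=
  pi_mem (I := Unit →₀ ℕ) a f fun d => by
    have := h (d ())
    rwa [coeff_def (s := d) rfl] at this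

theorem self_mem {a : Ideal R} {r : R} : r ∈ (a • ⊤ : Submodule R R) ↔ r ∈ a := by
  rw [smul_eq_mul, Ideal.mul_top]

theorem prec_pi [IsNoetherianRing R] {I N : Type} [AddCommGroup N] [Module R N] (a : Ideal R)
    [IsPrecomplete a N] : IsPrecomplete a (I → N) where
  prec' := fun f hf => by
    have h : ∀ i, ∃ L, ∀ n, f n i ≡ L [SMOD (a ^ n • ⊤ : Submodule R N)] := fun i =>
      IsPrecomplete.prec' (fun n => f n i) fun hmn => by
        have := hf hmn
        rw [SModEq.sub_mem] at this ⊢
        exact map_mem_smul (LinearMap.proj (R := R) (φ := fun _ => N) i) this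
    choose L hL using h
    exact ⟨L, fun n => SModEq.sub_mem.2 (pi_mem _ _ fun i => SModEq.sub_mem.1 (hL i n))⟩

theorem prec_prod {M N : Type} [AddCommGroup M] [Module R M] [AddCommGroup N] [Module R N]
    (a : Ideal R) [IsPrecomplete a M] [IsPrecomplete a N] : IsPrecomplete a (M × N) where
  prec' := fun f hf => by
    obtain ⟨L1, h1⟩ := IsPrecomplete.prec' (I := a) (fun n => (f n).1) fun hmn =>
      SModEq.sub_mem.2 (map_mem_smul (LinearMap.fst R M N) (SModEq.sub_mem.1 (hf hmn)))
    obtain ⟨L2, h2⟩ := IsPrecomplete.prec' (I := a) (fun n => (f n).2) fun hmn =>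
      SModEq.sub_mem.2 (map_mem_smul (LinearMap.snd R M N) (SModEq.sub_mem.1 (hf hmn)))
    exact ⟨(L1, L2), fun n =>
      SModEq.sub_mem.2 (prod_mem (SModEq.sub_mem.1 (h1 n)) (SModEq.sub_mem.1 (h2 n)))⟩

theorem inj_of_flat {M N : Type} [AddCommGroup M] [Module R M] [AddCommGroup N] [Module R N]
    [IsNoetherianRing R] [Module.Flat R N] (a : Ideal R) (f : M →ₗ[R] N)
    (hs : Function.Surjective f) (h : ∀ v, f v = 0 → v ∈ (a • ⊤ : Submodule R M))
    (hsep : ∀ v : M, (∀ n, v ∈ (a ^ n • ⊤ : Submodule R M)) → v = 0) : Function.Injective f := by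
  obtain ⟨k, s, hs'⟩ := Submodule.fg_iff_exists_fin_generating_family.1 (IsNoetherian.noetherian a)
  have hsa : ∀ i, s i ∈ a := fun i => hs' ▸ Submodule.subset_span ⟨i, rfl⟩
  have key : ∀ n v, f v = 0 → v ∈ (a ^ n • ⊤ : Submodule R M) := by
    intro n
    induction n with
    | zero => simp
    | succ n ih =>
      intro v hv
      have h1 := h v hv
      rw [← hs'] at h1
      obtain ⟨y, rfl⟩ := mem_span_smul s h1
      have h2 : ∑ i, s i • f (y i) = 0 := by simpa [map_sum] using hv
      obtain ⟨l, c, w, hw, hc⟩ := Module.Flat.isTrivialRelation_of_sum_smul_eq_zero h2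
      choose u hu using fun j => hs (w j)
      have h3 : ∑ i, s i • y i = ∑ i, s i • (y i - ∑ j, c i j • u j) := by
        simp only [smul_sub, Finset.sum_sub_distrib, Finset.smul_sum, smul_smul]
        rw [Finset.sum_comm]
        simp [← Finset.sum_smul, hc]
      rw [h3, pow_succ', Submodule.mul_smul]
      refine Submodule.sum_mem _ fun i _ => Submodule.smul_mem_smul (hsa i) (ih _ ?_)
      simp [map_sum, hu, hw i]
  rw [injective_iff_map_eq_zero]
  exact fun v hv => hsep v fun n => key n v hv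

theorem flat_pi [IsNoetherianRing R] {I N : Type} [AddCommGroup N] [Module R N] [Module.Flat R N] :
    Module.Flat R (I → N) := by
  refine Module.Flat.of_forall_isTrivialRelation fun {l f x} hx => ?_
  let K : Submodule R (Fin l → R) := LinearMap.ker (Fintype.linearCombination R f)
  obtain ⟨k, s, hs⟩ := Submodule.fg_iff_exists_fin_generating_family.1 (IsNoetherian.noetherian K)
  have h1 : ∀ i : I, ∃ y : Fin k → N, ∀ a, x a i = ∑ j, s j a • y j := fun i => by
    have h2 : ∑ a, f a • x a i = 0 := by simpa [Finset.sum_apply] using congrFun hx i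
    obtain ⟨m, c, w, hw, hc⟩ := Module.Flat.isTrivialRelation_of_sum_smul_eq_zero h2
    have h3 : ∀ b, ∃ e : Fin k → R, ∑ j, e j • s j = fun a => c a b := fun b => by
      rw [← Submodule.mem_span_range_iff_exists_fun, hs]
      simpa [K, Fintype.linearCombination_apply, mul_comm] using hc b
    choose e he using h3
    refine ⟨fun j => ∑ b, e b j • w b, fun a => ?_⟩
    refine (hw a).trans ?_
    simp only [Finset.smul_sum, smul_smul]
    rw [Finset.sum_comm]
    refine Finset.sum_congr rfl fun b _ => ?_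
    rw [← Finset.sum_smul, ← congrFun (he b) a]
    simp [Finset.sum_apply, mul_comm]
  choose y hy using h1
  refine ⟨k, fun a j => s j a, fun j i => y i j, fun a => ?_, fun j => ?_⟩
  · funext i; simpa [Finset.sum_apply] using hy i a
  · have : s j ∈ K := hs ▸ Submodule.subset_span ⟨j, rfl⟩
    simpa [K, Fintype.linearCombination_apply, mul_comm] using this

end Mod

section Beta

variable {T O : Type} [CommRing T] [CommRing O] [Algebra ℂ O] [IsGerm O] [Algebra T O]

theorem exists_ev1 (T : Type) [CommRing T] [Algebra T O] (z : O) :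
    ∃ φ : T⟦X⟧ →ₐ[T] O, z ∈ maximalIdeal O → φ X = z := by
  by_cases hz : z ∈ maximalIdeal O
  · obtain ⟨φ, h⟩ := exists_ev (σ := Unit) (R := T) (fun _ => z) fun _ => hz
    exact ⟨φ, fun _ => h ()⟩
  · obtain ⟨φ, -⟩ := exists_ev (σ := Unit) (R := T) (fun _ => (0 : O)) fun _ => zero_mem _
    exact ⟨φ, fun h => absurd h hz⟩

/-- Evaluation of a power series at an element of the maximal ideal. -/
def ev (T : Type) [CommRing T] [Algebra T O] (z : O) : T⟦X⟧ →ₐ[T] O :=
  Classical.choose (exists_ev1 T z)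

theorem ev_X {z : O} (hz : z ∈ maximalIdeal O) : ev T z X = z :=
  Classical.choose_spec (exists_ev1 T z) hz

theorem ev_C (z : O) (t : T) : ev T z (C t) = algebraMap T O t := (ev T z).commutes t

omit [Algebra T O] in
theorem ps_ext (φ ψ : T⟦X⟧ →+* O) (hC : ∀ r, φ (C r) = ψ (C r)) (hX : φ X = ψ X)
    (hm : φ X ∈ maximalIdeal O) : φ = ψ :=
  hom_ext (σ := Unit) φ ψ hC (fun _ => hX) fun _ => hm

variable {ι : Type} [Fintype ι]

/-- The coordinate map. -/
def beta (T : Type) [CommRing T] [Algebra T O] (Z : ι → O) : (T × (ι → T⟦X⟧)) →ₗ[T] O where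
  toFun v := algebraMap T O v.1 + ∑ p, Z p * ev T (Z p) (v.2 p)
  map_add' v w := by
    simp only [Prod.fst_add, Prod.snd_add, Pi.add_apply, map_add, mul_add, Finset.sum_add_distrib]
    ring
  map_smul' t v := by
    simp only [Prod.smul_fst, Prod.smul_snd, Pi.smul_apply, map_smul, smul_eq_mul, map_mul,
      RingHom.id_apply, smul_add, Finset.smul_sum, mul_smul_comm]
    rw [Algebra.smul_def]

theorem beta_apply (Z : ι → O) (v : T × (ι → T⟦X⟧)) :
    beta T Z v = algebraMap T O v.1 + ∑ p, Z p * ev T (Z p) (v.2 p) := rfl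

variable {T' O' : Type} [CommRing T'] [CommRing O'] [Algebra ℂ O'] [IsGerm O'] [Algebra T' O']

theorem map_ev (τ : T →+* T') (ψ : O →ₐ[ℂ] O')
    (h : ∀ t, ψ (algebraMap T O t) = algebraMap T' O' (τ t)) {z : O} (hz : z ∈ maximalIdeal O)
    (H : T⟦X⟧) : ψ (ev T z H) = ev T' (ψ z) (PowerSeries.map τ H) := by
  have := ps_ext (ψ.toRingHom.comp (ev T z).toRingHom)
    ((ev T' (ψ z)).toRingHom.comp (PowerSeries.map τ)) (fun r => by simp [ev_C, h])
    (by simp [ev_X hz, ev_X (map_max ψ hz)]) (by simpa [ev_X hz] using map_max ψ hz)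
  exact RingHom.congr_fun this H

theorem map_beta (τ : T →+* T') (ψ : O →ₐ[ℂ] O')
    (h : ∀ t, ψ (algebraMap T O t) = algebraMap T' O' (τ t)) {Z : ι → O}
    (hZ : ∀ p, Z p ∈ maximalIdeal O) (v : T × (ι → T⟦X⟧)) :
    ψ (beta T Z v) = beta T' (fun p => ψ (Z p)) (τ v.1, fun p => PowerSeries.map τ (v.2 p)) := by
  simp only [beta_apply, map_add, map_sum, map_mul, h, map_ev τ ψ h (hZ _)]

variable [Algebra ℂ T] [IsGerm T] [IsScalarTower ℂ T O]

theorem map_max_le : (maximalIdeal T).map (algebraMap T O) ≤ maximalIdeal O :=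
  Ideal.map_le_iff_le_comap.2 fun _ hx => map_max (IsScalarTower.toAlgHom ℂ T O) hx

theorem beta_surj (Z : ι → O)
    (h : ∀ o, ∃ v, o - beta T Z v ∈ (maximalIdeal T).map (algebraMap T O)) :
    Function.Surjective (beta T Z) := by
  have h1 : IsPrecomplete (maximalIdeal T) T⟦X⟧ := prec_pi (I := Unit →₀ ℕ) _
  have h2 : IsPrecomplete (maximalIdeal T) (ι → T⟦X⟧) := prec_pi _
  have h3 : IsPrecomplete (maximalIdeal T) (T × (ι → T⟦X⟧)) := prec_prod _
  have h4 : IsHausdorff (maximalIdeal T) O := ⟨fun o ho => krull fun n => by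
    have := ho n
    rw [SModEq.zero, Ideal.smul_top_eq_map, Ideal.map_pow] at this
    exact Ideal.pow_right_mono map_max_le n this⟩
  refine surjective_of_mkQ_comp_surjective (I := maximalIdeal T) fun y => ?_
  obtain ⟨o, rfl⟩ := Submodule.mkQ_surjective _ y
  obtain ⟨v, hv⟩ := h o
  refine ⟨v, ?_⟩
  rw [LinearMap.comp_apply, Submodule.mkQ_apply, Submodule.mkQ_apply, eq_comm,
    Submodule.Quotient.eq, Ideal.smul_top_eq_map]
  exact hv

end Beta

section Res

variable {R : Type} [CommRing R] [Algebra ℂ R] [IsGerm R]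

theorem exists_res : ∃ ρ : R →ₐ[ℂ] ℂ, ∀ r, r - algebraMap ℂ R (ρ r) ∈ maximalIdeal R := by
  let e : ℂ ≃ₐ[ℂ] ResidueField R := AlgEquiv.ofBijective (Algebra.ofId _ _)
    ⟨(algebraMap ℂ (ResidueField R)).injective, fun y => by
      obtain ⟨r, rfl⟩ := residue_surjective y
      obtain ⟨c, hc⟩ := IsGerm.res r
      exact ⟨c, (Ideal.Quotient.eq.2 hc).symm⟩⟩
  refine ⟨e.symm.toAlgHom.comp (IsScalarTower.toAlgHom ℂ R (ResidueField R)), fun r => ?_⟩
  rw [← Ideal.Quotient.eq]
  exact (e.apply_symm_apply _).symm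

/-- The value at the closed point. -/
def res (R : Type) [CommRing R] [Algebra ℂ R] [IsGerm R] : R →ₐ[ℂ] ℂ := Classical.choose exists_res

theorem sub_res (r : R) : r - algebraMap ℂ R (res R r) ∈ maximalIdeal R :=
  Classical.choose_spec exists_res r

theorem res_eq_zero {r : R} : res R r = 0 ↔ r ∈ maximalIdeal R := by
  refine ⟨fun h => by simpa [h] using sub_res r, fun h => ?_⟩
  by_contra h0
  have : algebraMap ℂ R (res R r) ∈ maximalIdeal R := by
    simpa using (maximalIdeal R).sub_mem h (sub_res r)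
  exact this ((IsUnit.mk0 _ h0).map _)

end Res

section Axes

variable {A R : Type} [CommRing A] [Algebra ℂ A] [IsGerm A] [CommRing R] [Algebra ℂ R] [IsGerm R]
  {ι : Type} [Fintype ι]

theorem pi_base (E : Defo A R) (r : R) :
    E.π (algebraMap R E.O r) = algebraMap ℂ A (res R r) := by
  have : algebraMap R E.O (r - algebraMap ℂ R (res R r)) ∈ RingHom.ker E.π :=
    E.ker ▸ Ideal.mem_map_of_mem _ (sub_res r)
  rw [RingHom.mem_ker, map_sub, map_sub, ← IsScalarTower.algebraMap_apply, AlgHom.commutes,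
    sub_eq_zero] at this
  exact this

variable [Algebra ℂ⟦X⟧ A] [IsScalarTower ℂ ℂ⟦X⟧ A] (E : Defo A R) [Algebra R⟦X⟧ E.O]
  [IsScalarTower R R⟦X⟧ E.O]

theorem pi_T (hx : E.π (algebraMap R⟦X⟧ E.O X) = algebraMap ℂ⟦X⟧ A X) (t : R⟦X⟧) :
    E.π (algebraMap R⟦X⟧ E.O t) = algebraMap ℂ⟦X⟧ A (PowerSeries.map (res R).toRingHom t) := by
  have hm : algebraMap ℂ⟦X⟧ A X ∈ maximalIdeal A :=
    map_max (IsScalarTower.toAlgHom ℂ ℂ⟦X⟧ A) (by
      rw [PowerSeries.maximalIdeal_eq_span_X]; exact Ideal.mem_span_singleton_self _)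
  have := ps_ext (E.π.toRingHom.comp (algebraMap R⟦X⟧ E.O))
    ((algebraMap ℂ⟦X⟧ A).comp (PowerSeries.map (res R).toRingHom)) (fun r => by
      have h1 : algebraMap R⟦X⟧ E.O (C r) = algebraMap R E.O r :=
        (IsScalarTower.algebraMap_apply R R⟦X⟧ E.O r).symm
      have h2 : ∀ c, algebraMap ℂ⟦X⟧ A (C c) = algebraMap ℂ A c := fun c =>
        (IsScalarTower.algebraMap_apply ℂ ℂ⟦X⟧ A c).symm
      simp [h1, h2, pi_base]) (by simpa using hx) (by simpa [hx] using hm)
  exact RingHom.congr_fun this t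

theorem red_mem (v : R⟦X⟧ × (ι → R⟦X⟧⟦X⟧)) (h1 : PowerSeries.map (res R).toRingHom v.1 = 0)
    (h2 : ∀ p, PowerSeries.map (PowerSeries.map (res R).toRingHom) (v.2 p) = 0) :
    v ∈ (maximalIdeal R • ⊤ : Submodule R (R⟦X⟧ × (ι → R⟦X⟧⟦X⟧))) := by
  have h : ∀ t : R⟦X⟧, PowerSeries.map (res R).toRingHom t = 0 →
      t ∈ (maximalIdeal R • ⊤ : Submodule R R⟦X⟧) := fun t ht =>
    ps_mem _ _ fun j => self_mem.2 (res_eq_zero.1 (by simpa using congrArg (coeff j) ht))
  exact prod_mem (h _ h1) (pi_mem _ _ fun p => ps_mem _ _ fun j =>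
    h _ (by simpa using congrArg (coeff j) (h2 p)))

theorem sep_M (v : R⟦X⟧ × (ι → R⟦X⟧⟦X⟧))
    (h : ∀ n, v ∈ (maximalIdeal R ^ n • ⊤ : Submodule R (R⟦X⟧ × (ι → R⟦X⟧⟦X⟧)))) : v = 0 := by
  refine Prod.ext ?_ (funext fun p => ?_)
  · ext j
    exact krull fun n => self_mem.1 (map_mem_smul ((coeff j).comp (LinearMap.fst R _ _)) (h n))
  · ext k j
    exact krull fun n => self_mem.1 (map_mem_smul ((coeff j).comp
      (((coeff k).restrictScalars R).comp ((LinearMap.proj p).comp (LinearMap.snd R _ _)))) (h n))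

theorem axes (hx : E.π (algebraMap R⟦X⟧ E.O X) = algebraMap ℂ⟦X⟧ A X) (Z : ι → E.O)
    (hZ : ∀ p, Z p ∈ maximalIdeal E.O)
    (hA : Function.Bijective (beta ℂ⟦X⟧ fun p => E.π (Z p))) :
    Function.Bijective (beta R⟦X⟧ Z) := by
  have : IsScalarTower ℂ R⟦X⟧ E.O := IsScalarTower.of_algebraMap_eq fun c => by
    rw [IsScalarTower.algebraMap_apply ℂ R E.O, IsScalarTower.algebraMap_apply ℂ R R⟦X⟧,
      ← IsScalarTower.algebraMap_apply R R⟦X⟧ E.O]
  have hm := map_beta _ E.π (pi_T E hx) hZ
  have hs : Function.Surjective (beta R⟦X⟧ Z) := beta_surj Z fun o => by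
    obtain ⟨w, hw⟩ := hA.2 (E.π o)
    have hr : Function.Surjective (res R).toRingHom := fun c => ⟨algebraMap _ _ c, by simp⟩
    have h1 := PowerSeries.map_surjective _ hr
    have h2 := PowerSeries.map_surjective _ h1
    obtain ⟨c, hc⟩ := h1 w.1
    choose H hH using fun p => h2 (w.2 p)
    refine ⟨(c, H), ?_⟩
    have h3 : o - beta R⟦X⟧ Z (c, H) ∈ RingHom.ker E.π := by
      rw [RingHom.mem_ker, map_sub, hm, ← hw, sub_eq_zero]
      simp only [hc, hH]
    rw [E.ker, IsScalarTower.algebraMap_eq R R⟦X⟧ E.O, ← Ideal.map_map] at h3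
    exact Ideal.map_mono map_max_le h3
  refine ⟨inj_of_flat (maximalIdeal R) ((beta R⟦X⟧ Z).restrictScalars R) hs (fun v hv => ?_) sep_M,
    hs⟩
  have h1 := hm v
  rw [show beta R⟦X⟧ Z v = 0 from hv, map_zero, eq_comm,
    (injective_iff_map_eq_zero' _).1 hA.1, Prod.ext_iff] at h1
  exact red_mem v h1.1 fun p => congrFun h1.2 p

end Axes

end Pool.Agent.MP_648617_ag.Vers

end
end MrgPart1

-- ======== part 2: formerly Pool.Agent.MP_648617_ag.vers.Rim
section MrgPart2

/-! The standard form of the products along the axes (relative version). -/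

open IsLocalRing PowerSeries

noncomputable section

namespace Pool.Agent.MP_648617_ag.Vers

variable {T O : Type} [CommRing T] [Algebra ℂ T] [IsGerm T] [CommRing O] [Algebra ℂ O] [IsGerm O]
  [Algebra T O] [IsScalarTower ℂ T O] {ι : Type} [Fintype ι] [DecidableEq ι]

/-- The error of the standard form. -/
def err (Z : ι → O) (al r : ι → ι → T) (p q : ι) : O :=
  Z p * Z q - algebraMap T O (al p q) * Z p - algebraMap T O (al q p) * Z q - algebraMap T O (r p q)

theorem mem_map_iff {a : Ideal T} {o : O} :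
    o ∈ a.map (algebraMap T O) ↔ o ∈ (a • ⊤ : Submodule T O) := by
  rw [Ideal.smul_top_eq_map]; rfl

theorem coord {Z : ι → O} (hb : Function.Bijective (beta T Z)) {a : Ideal T}
    {v : T × (ι → T⟦X⟧)} (h : beta T Z v ∈ a.map (algebraMap T O)) :
    v.1 ∈ a ∧ ∀ p j, coeff j (v.2 p) ∈ a := by
  have h1 := map_mem_smul (LinearEquiv.ofBijective _ hb).symm.toLinearMap (mem_map_iff.1 h)
  have h2 : (LinearEquiv.ofBijective _ hb).symm.toLinearMap (beta T Z v) = v :=
    (LinearEquiv.ofBijective _ hb).symm_apply_apply v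
  rw [h2] at h1
  exact ⟨self_mem.1 (map_mem_smul (LinearMap.fst T _ _) h1), fun p j => self_mem.1
    (map_mem_smul ((coeff j).comp ((LinearMap.proj p).comp (LinearMap.snd T _ _))) h1)⟩

theorem ev_mem (z : O) {a : Ideal T} {H : T⟦X⟧} (h : ∀ j, coeff j H ∈ a) :
    ev T z H ∈ a.map (algebraMap T O) :=
  mem_map_iff.2 (map_mem_smul (ev T z).toLinearMap (ps_mem a H fun j => self_mem.2 (h j)))

theorem beta_single (Z : ι → O) (s : ι) (G : T⟦X⟧) :
    beta T Z (0, Pi.single s G) = Z s * ev T (Z s) G := by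
  rw [beta_apply, map_zero, zero_add, Finset.sum_eq_single s]
  · simp
  · intro p _ hp; simp [Pi.single_eq_of_ne hp]
  · simp

/-- Coordinate vectors of the linear elements. -/
def linS (T ι : Type) [CommRing T] : Submodule T (T × (ι → T⟦X⟧)) where
  carrier := {v | ∀ p j, coeff (j + 1) (v.2 p) = 0}
  add_mem' := fun ha hb p j => by simp [ha p j, hb p j]
  zero_mem' := fun p j => by simp
  smul_mem' := fun t v hv p j => by simp [hv p j]

theorem one_lin (Z : ι → O) (t : T) : algebraMap T O t ∈ (linS T ι).map (beta T Z) :=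
  ⟨(t, 0), fun p j => by simp, by simp [beta_apply]⟩

theorem Z_lin (Z : ι → O) (t : T) (s : ι) :
    algebraMap T O t * Z s ∈ (linS T ι).map (beta T Z) := by
  refine ⟨(0, Pi.single s (C t)), fun p j => ?_, by rw [beta_single, ev_C, mul_comm]⟩
  by_cases h : p = s
  · subst h; simp [coeff_C]
  · simp [Pi.single_eq_of_ne h]

theorem rim_step (a : Ideal T) (ha : a ≤ maximalIdeal T) (Z : ι → O) (al r : ι → ι → T)
    (hZ : ∀ p, Z p ∈ maximalIdeal O) (hal : ∀ p q, al p q ∈ maximalIdeal T)
    (hr : ∀ p q, r p q ∈ maximalIdeal T) (hb : Function.Bijective (beta T Z))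
    (he : ∀ p q, p ≠ q → err Z al r p q ∈ a.map (algebraMap T O)) :
    ∃ (Z' : ι → O) (al' r' : ι → ι → T), (∀ p, Z' p - Z p ∈ a.map (algebraMap T O)) ∧
      (∀ p q, al' p q - al p q ∈ a) ∧ (∀ p q, r' p q - r p q ∈ a) ∧
      ∀ p q, p ≠ q → err Z' al' r' p q ∈ (maximalIdeal T * a).map (algebraMap T O) := by
  set A := a.map (algebraMap T O) with hA
  set M := (maximalIdeal T).map (algebraMap T O) with hM
  have hB : (maximalIdeal T * a).map (algebraMap T O) = M * A := Ideal.map_mul _ _ _
  have hAM : A ≤ M := Ideal.map_mono ha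
  have hm : ∀ {t}, t ∈ maximalIdeal T → algebraMap T O t ∈ M := fun h => Ideal.mem_map_of_mem _ h
  have hv : ∀ p q, ∃ v : T × (ι → T⟦X⟧), (p ≠ q → beta T Z v = err Z al r p q) ∧
      v.1 ∈ a ∧ ∀ s j, coeff j (v.2 s) ∈ a := fun p q => by
    by_cases h : p = q
    · exact ⟨0, fun h' => absurd h h', by simp, by simp⟩
    · obtain ⟨v, hv⟩ := hb.2 (err Z al r p q)
      exact ⟨v, fun _ => hv, coord hb (hv ▸ he p q h)⟩
  choose v hv hv1 hv2 using hv
  have hZZ : ∀ {p q}, p ≠ q → Z p * Z q ∈ M := fun {p q} h => by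
    have := M.add_mem (M.add_mem (M.add_mem (hAM (he p q h)) (M.mul_mem_right (Z p) (hm (hal p q))))
      (M.mul_mem_right (Z q) (hm (hal q p)))) (hm (hr p q))
    convert this using 1
    unfold err; ring
  have hE : ∀ p q s, ev T (Z s) ((v p q).2 s) ∈ A := fun p q s => ev_mem _ (hv2 p q s)
  have F2 : ∀ {p q} (s), p ≠ q → Z s * err Z al r p q -
      Z s * ev T (Z s) (C (v p q).1 + X * (v p q).2 s) ∈ M * A := fun {p q} s h => by
    rw [← hv p q h, beta_apply, map_add, map_mul, ev_C, ev_X (hZ s),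
      ← Finset.add_sum_erase _ _ (Finset.mem_univ s)]
    have : ∑ x ∈ Finset.univ.erase s, Z s * Z x * ev T (Z x) ((v p q).2 x) ∈ M * A :=
      Ideal.sum_mem _ fun x hx => Ideal.mul_mem_mul (hZZ (Finset.ne_of_mem_erase hx).symm) (hE p q x)
    convert this using 1
    simp only [mul_assoc, ← Finset.mul_sum]; ring
  have F3 : ∀ {p q s}, p ≠ q → s ≠ p → s ≠ q → ∀ j, coeff j ((v p q).2 s) ∈ maximalIdeal T * a := by
    intro p q s hpq hsp hsq j
    let W : Submodule T O := (linS T ι).map (beta T Z) ⊔ (M * A).restrictScalars T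
    have w1 : ∀ {o}, o ∈ (linS T ι).map (beta T Z) → o ∈ W := fun h => Submodule.mem_sup_left h
    have w2 : ∀ {o}, o ∈ M * A → o ∈ W := fun h => Submodule.mem_sup_right h
    have w3 : ∀ {t x y}, t ∈ maximalIdeal T → x ≠ y → algebraMap T O t * (Z x * Z y) ∈ W := by
      intro t x y ht hxy
      have := W.add_mem (W.add_mem (W.add_mem (w2 (Ideal.mul_mem_mul (hm ht) (he x y hxy)))
        (w1 (Z_lin Z (t * al x y) x))) (w1 (Z_lin Z (t * al y x) y))) (w1 (one_lin Z (t * r x y)))
      convert this using 1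
      simp only [err, map_mul]; ring
    have w4 : Z s * err Z al r p q - Z q * err Z al r p s ∈ W := by
      have := W.sub_mem (W.sub_mem (W.sub_mem (W.add_mem (W.add_mem (w3 (hal p s) hpq)
        (w3 (hal s p) hsq)) (w1 (Z_lin Z (r p s) q))) (w3 (hal p q) hsp)) (w3 (hal q p) hsq))
        (w1 (Z_lin Z (r p q) s))
      convert this using 1
      unfold err; ring
    have w5 := W.add_mem (W.sub_mem w4 (w2 (F2 s hpq))) (w2 (F2 q hsp.symm))
    obtain ⟨_, ⟨l, hl, rfl⟩, b, hb', hlb⟩ := Submodule.mem_sup.1 w5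
    have w6 : beta T Z (((0 : T), (Pi.single s (C (v p q).1 + X * (v p q).2 s) : ι → T⟦X⟧)) -
        ((0 : T), (Pi.single q (C (v p s).1 + X * (v p s).2 q) : ι → T⟦X⟧)) - l) ∈
        (maximalIdeal T * a).map (algebraMap T O) := by
      rw [map_sub, map_sub, beta_single, beta_single, hB]
      have hb'' : b ∈ M * A := hb'
      convert hb'' using 1
      linear_combination -hlb
    have w7 := (coord hb w6).2 s (j + 1)
    simpa [Pi.single_eq_of_ne hsq, hl s j, coeff_succ_X_mul, coeff_C] using w7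
  have F4 : ∀ {p q}, p ≠ q → (v p q).2 = (v q p).2 := fun {p q} h => by
    have : beta T Z (v p q) = beta T Z (v q p + (r q p - r p q, 0)) := by
      rw [map_add, hv p q h, hv q p h.symm]
      simp only [err, beta_apply, Pi.zero_apply, map_zero, mul_zero, Finset.sum_const_zero, map_sub]
      ring
    simpa using congrArg Prod.snd (hb.1 this)
  let θ : ι → ι → O := fun p q => ev T (Z p) (PowerSeries.mk fun j => coeff (j + 1) ((v p q).2 p))
  have hθ : ∀ p q, θ p q ∈ A := fun p q => ev_mem _ fun j => by simpa using hv2 p q p (j + 1)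
  have hθ' : ∀ p q, ev T (Z p) ((v p q).2 p) =
      Z p * θ p q + algebraMap T O (constantCoeff ((v p q).2 p)) := fun p q => by
    conv_lhs => rw [eq_X_mul_shift_add_const ((v p q).2 p)]
    rw [map_add, map_mul, ev_X (hZ p), ev_C]
  let δ : ι → O := fun q => ∑ p ∈ Finset.univ.erase q, Z p * θ p q
  have hδ : ∀ q, δ q ∈ A := fun q => Ideal.sum_mem _ fun p _ => A.mul_mem_left _ (hθ p q)
  have hδ' : ∀ {p q}, p ≠ q → Z p * δ q - Z p * Z p * θ p q ∈ M * A := fun {p q} h => by
    have h1 : p ∈ Finset.univ.erase q := by simpa using h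
    have : ∑ x ∈ (Finset.univ.erase q).erase p, Z p * Z x * θ x q ∈ M * A :=
      Ideal.sum_mem _ fun x hx => Ideal.mul_mem_mul (hZZ (Finset.ne_of_mem_erase hx).symm) (hθ x q)
    convert this using 1
    simp only [δ]
    rw [← Finset.add_sum_erase _ _ h1]
    simp only [mul_assoc, ← Finset.mul_sum]; ring
  have hc : ∀ p q, constantCoeff ((v p q).2 p) ∈ a := fun p q => by simpa using hv2 p q p 0
  refine ⟨fun q => Z q - δ q, fun p q => al p q + constantCoeff ((v p q).2 p),
    fun p q => r p q + (v p q).1, fun p => by simpa using A.neg_mem (hδ p),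
    fun p q => by simpa using hc p q, fun p q => by simpa using hv1 p q, fun p q h => ?_⟩
  have h1 : q ∈ Finset.univ.erase p := by simpa using h.symm
  have h2 : ∑ x ∈ (Finset.univ.erase p).erase q, Z x * ev T (Z x) ((v p q).2 x) ∈ M * A :=
    Ideal.sum_mem _ fun x hx => Ideal.mul_mem_left _ _ (hB ▸ ev_mem _
      (F3 h (Finset.ne_of_mem_erase (Finset.mem_of_mem_erase hx)) (Finset.ne_of_mem_erase hx)))
  have h3 := hv p q h
  rw [beta_apply, ← Finset.add_sum_erase _ _ (Finset.mem_univ p), ← Finset.add_sum_erase _ _ h1,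
    hθ', congrFun (F4 h) q, hθ'] at h3
  have h4 := (M * A).add_mem ((M * A).add_mem ((M * A).add_mem ((M * A).sub_mem ((M * A).sub_mem h2
    (hδ' h)) (hδ' h.symm)) (Ideal.mul_mem_mul (hAM (hδ p)) (hδ q)))
    (Ideal.mul_mem_mul (hm (add_mem (hal p q) (ha (hc p q)))) (hδ p)))
    (Ideal.mul_mem_mul (hm (add_mem (hal q p) (ha (hc q p)))) (hδ q))
  rw [hB]
  convert h4 using 1
  simp only [err, map_add] at h3 ⊢
  linear_combination -h3

theorem rim (J : Ideal T) (hJ : J ≤ maximalIdeal T) (Z : ι → O) (al r : ι → ι → T)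
    (hZ : ∀ p, Z p ∈ maximalIdeal O) (hal : ∀ p q, al p q ∈ maximalIdeal T)
    (hr : ∀ p q, r p q ∈ maximalIdeal T)
    (hb : ∀ Z' : ι → O, (∀ p, Z' p - Z p ∈ J.map (algebraMap T O)) →
      Function.Bijective (beta T Z'))
    (he : ∀ p q, p ≠ q → err Z al r p q ∈ J.map (algebraMap T O)) :
    ∃ (Z' : ι → O) (al' r' : ι → ι → T), (∀ p, Z' p - Z p ∈ J.map (algebraMap T O)) ∧
      (∀ p q, al' p q - al p q ∈ J) ∧ (∀ p q, r' p q - r p q ∈ J) ∧
      ∀ p q, p ≠ q → err Z' al' r' p q = 0 := by
  let S := (ι → O) × (ι → ι → T) × (ι → ι → T)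
  let Cl : Ideal T → S → S → Prop := fun a x y => (∀ p, y.1 p - x.1 p ∈ a.map (algebraMap T O)) ∧
    (∀ p q, y.2.1 p q - x.2.1 p q ∈ a) ∧ ∀ p q, y.2.2 p q - x.2.2 p q ∈ a
  let P : ℕ → S → Prop := fun n x => Cl J (Z, al, r) x ∧
    ∀ p q, p ≠ q → err x.1 x.2.1 x.2.2 p q ∈ (maximalIdeal T ^ n * J).map (algebraMap T O)
  have hJO : J.map (algebraMap T O) ≤ maximalIdeal O := (Ideal.map_mono hJ).trans map_max_le
  have step : ∀ n x, P n x → ∃ y, P (n + 1) y ∧ Cl (maximalIdeal T ^ n * J) x y := by
    rintro n x ⟨⟨h1, h2, h3⟩, h4⟩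
    have hle : maximalIdeal T ^ n * J ≤ J := Ideal.mul_le_right
    obtain ⟨Z', al', r', k1, k2, k3, k4⟩ := rim_step (maximalIdeal T ^ n * J) (hle.trans hJ)
      x.1 x.2.1 x.2.2 (fun p => by simpa using add_mem (hJO (h1 p)) (hZ p))
      (fun p q => by simpa using add_mem (hJ (h2 p q)) (hal p q))
      (fun p q => by simpa using add_mem (hJ (h3 p q)) (hr p q)) (hb _ h1) h4
    refine ⟨(Z', al', r'), ⟨⟨fun p => ?_, fun p q => ?_, fun p q => ?_⟩, fun p q h => ?_⟩,
      k1, k2, k3⟩
    · simpa using add_mem (Ideal.map_mono hle (k1 p)) (h1 p)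
    · simpa using add_mem (hle (k2 p q)) (h2 p q)
    · simpa using add_mem (hle (k3 p q)) (h3 p q)
    · rw [pow_succ', mul_assoc]; exact k4 p q h
  choose! nx hnx using step
  let x : ℕ → S := fun n => Nat.rec (Z, al, r) (fun n y => nx n y) n
  have hP : ∀ n, P n (x n) := fun n => by
    induction n with
    | zero => exact ⟨⟨by simp [x], by simp [x], by simp [x]⟩, by simpa [x] using he⟩
    | succ n ih => exact (hnx n _ ih).1
  have hC : ∀ n, Cl (maximalIdeal T ^ n * J) (x n) (x (n + 1)) := fun n => (hnx n _ (hP n)).2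
  have hO : ∀ n, (maximalIdeal T ^ n).map (algebraMap T O) ≤ maximalIdeal O ^ n := fun n => by
    rw [Ideal.map_pow]; exact Ideal.pow_right_mono map_max_le n
  have hO' : ∀ n, (maximalIdeal T ^ n * J).map (algebraMap T O) ≤ maximalIdeal O ^ n := fun n =>
    (Ideal.map_mono Ideal.mul_le_left).trans (hO n)
  choose Z' hZ' using fun p => lim (fun n => (x n).1 p) fun n => hO' n ((hC n).1 p)
  choose al' hal' using fun p q => lim (fun n => (x n).2.1 p q) fun n =>
    Ideal.mul_le_left ((hC n).2.1 p q)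
  choose r' hr' using fun p q => lim (fun n => (x n).2.2 p q) fun n =>
    Ideal.mul_le_left ((hC n).2.2 p q)
  refine ⟨Z', al', r', fun p => closed _ fun n => ?_, fun p q => closed _ fun n => ?_,
    fun p q => closed _ fun n => ?_, fun p q h => krull fun n => ?_⟩
  · simpa using add_mem (Ideal.mem_sup_right (hZ' p n)) (Ideal.mem_sup_left ((hP n).1.1 p))
  · simpa using add_mem (Ideal.mem_sup_right (hal' p q n)) (Ideal.mem_sup_left ((hP n).1.2.1 p q))
  · simpa using add_mem (Ideal.mem_sup_right (hr' p q n)) (Ideal.mem_sup_left ((hP n).1.2.2 p q))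
  · set I := maximalIdeal O ^ n
    have m : ∀ {t}, t ∈ maximalIdeal T ^ n → algebraMap T O t ∈ I := fun ht =>
      hO n (Ideal.mem_map_of_mem _ ht)
    have := I.sub_mem (I.sub_mem (I.sub_mem (I.add_mem (I.add_mem (hO' n ((hP n).2 p q h))
      (I.mul_mem_right (Z' q - algebraMap T O (al' p q)) (hZ' p n)))
      (I.mul_mem_right ((x n).1 p - algebraMap T O (al' q p)) (hZ' q n)))
      (I.mul_mem_right ((x n).1 p) (m (hal' p q n)))) (I.mul_mem_right ((x n).1 q) (m (hal' q p n))))
      (m (hr' p q n))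
    convert this using 1
    simp only [err, map_sub]; ring

theorem rim_eq {Z : ι → O} {al r : ι → ι → T} (hb : Function.Injective (beta T Z))
    (he : ∀ p q, p ≠ q → err Z al r p q = 0) {p q s : ι} (hpq : p ≠ q) (hsp : s ≠ p)
    (hsq : s ≠ q) : r p q + al p q * al q p = (al s p - al q p) * (al s q - al p q) := by
  have h1 := he p q hpq
  have h2 := he p s hsp.symm
  have h3 := he s q hsq
  have h4 := he s p hsp
  let u : T := r p q + al p q * al q p - (al s p - al q p) * (al s q - al p q)
  have key : ∃ c a b : T, beta T Z ((0, Pi.single s (C u)) + (0, Pi.single p (C a)) +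
      (0, Pi.single q (C b)) + (c, 0)) = 0 := by
    refine ⟨al p q * r s p + al q p * r s q - al p s * r p q - al s p * r s q,
      al p q * al p s - al p s * al p q, al q p * al q s - al p s * al q p - al s p * al q s - r p s,
      ?_⟩
    simp only [map_add, beta_single, ev_C]
    simp only [err, u, beta_apply, Pi.zero_apply, map_zero, mul_zero, Finset.sum_const_zero, map_sub,
      map_add, map_mul] at h1 h2 h3 h4 ⊢
    linear_combination (algebraMap T O (al p s) - Z s) * h1 + Z q * h2 +
      (algebraMap T O (al s p) - algebraMap T O (al q p)) * h3 - algebraMap T O (al p q) * h4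
  obtain ⟨c, a, b, h⟩ := key
  have h5 := congrFun (congrArg Prod.snd ((injective_iff_map_eq_zero _).1 hb _ h)) s
  have h6 : u = 0 := by
    simpa [Pi.single_eq_of_ne hsp, Pi.single_eq_of_ne hsq] using congrArg constantCoeff h5
  exact sub_eq_zero.1 h6

end Pool.Agent.MP_648617_ag.Vers

end
end MrgPart2

-- ======== part 3: formerly Pool.Agent.MP_648617_ag.vers.Model
section MrgPart3

/-! The ring defined by the standard form is flat. -/

open IsLocalRing

noncomputable section

namespace Pool.Agent.MP_648617_ag.Vers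

section Poly

variable {T : Type} [CommRing T] {ι : Type}

theorem map_err {O T' O' : Type} [CommRing O] [Algebra T O] [CommRing T'] [CommRing O']
    [Algebra T' O'] (τ : T → T') (ψ : O →+* O')
    (h : ∀ t, ψ (algebraMap T O t) = algebraMap T' O' (τ t)) (Z : ι → O) (al r : ι → ι → T)
    (p q : ι) : ψ (err Z al r p q) =
      err (fun p => ψ (Z p)) (fun p q => τ (al p q)) (fun p q => τ (r p q)) p q := by
  simp only [err, map_sub, map_mul, h]

/-- The equations between the coefficients of the standard form. -/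
structure RimEq (al r : ι → ι → T) : Prop where
  symm : ∀ p q, p ≠ q → r p q = r q p
  eq : ∀ p q s, p ≠ q → s ≠ p → s ≠ q →
    r p q + al p q * al q p = (al s p - al q p) * (al s q - al p q)

theorem err_axis [DecidableEq ι] {L : Type} [CommRing L] [Algebra T L] {al r : ι → ι → T}
    (H : RimEq al r) (p : ι) (Z : L) (e : ι → L)
    (he : ∀ q, e q * (Z - algebraMap T L (al q p)) = 1) (q s : ι) (hqs : q ≠ s) :
    err (fun q => if q = p then Z else algebraMap T L (al p q) +
      algebraMap T L (r p q + al p q * al q p) * e q) al r q s = 0 := by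
  unfold err
  by_cases hq : q = p
  · subst hq
    simp only [if_neg hqs.symm, if_true, map_add, map_mul]
    linear_combination (algebraMap T L (r q s) + algebraMap T L (al q s) * algebraMap T L (al s q)) *
      he s
  by_cases hs : s = p
  · subst hs
    simp only [if_neg hq, if_true, map_add, map_mul, H.symm q s hqs]
    linear_combination (algebraMap T L (r s q) + algebraMap T L (al s q) * algebraMap T L (al q s)) *
      he q
  simp only [if_neg hq, if_neg hs]
  rw [H.eq p q s (Ne.symm hq) hs hqs.symm, H.eq p s q (Ne.symm hs) hq hqs,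
    eq_sub_of_add_eq (H.eq q s p hqs (Ne.symm hq) (Ne.symm hs))]
  simp only [map_mul, map_sub]
  have h1 := he q
  have h2 := he s
  set a := algebraMap T L (al p q) - algebraMap T L (al s q)
  set b := algebraMap T L (al p s) - algebraMap T L (al q s)
  have h3 : algebraMap T L (al p q) + (algebraMap T L (al s p) - algebraMap T L (al q p)) *
      (algebraMap T L (al s q) - algebraMap T L (al p q)) * e q =
      algebraMap T L (al s q) + a * e q * (Z - algebraMap T L (al s p)) := by
    simp only [a]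
    linear_combination -(algebraMap T L (al p q) - algebraMap T L (al s q)) * h1
  have h4 : algebraMap T L (al p s) + (algebraMap T L (al q p) - algebraMap T L (al s p)) *
      (algebraMap T L (al q s) - algebraMap T L (al p s)) * e s =
      algebraMap T L (al q s) + b * e s * (Z - algebraMap T L (al q p)) := by
    simp only [b]
    linear_combination -(algebraMap T L (al p s) - algebraMap T L (al q s)) * h2
  rw [h3, h4]
  linear_combination a * b * (e s * (Z - algebraMap T L (al s p))) * h1 + a * b * h2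

/-- The ideal of the standard form. -/
def relI (al r : ι → ι → T) : Ideal (MvPolynomial ι T) :=
  Ideal.span {f | ∃ p q, p ≠ q ∧ f = err (O := MvPolynomial ι T) MvPolynomial.X al r p q}

theorem exists_axis [DecidableEq ι] {al r : ι → ι → T} (H : RimEq al r) (p : ι) :
    ∃ ψ : (MvPolynomial ι T ⧸ relI al r) →+* LaurentSeries T,
      (∀ t, ψ (algebraMap T _ t) = HahnSeries.C t) ∧
      ψ (Ideal.Quotient.mk _ (MvPolynomial.X p)) = HahnSeries.single (-1) 1 ∧
      ∀ q, q ≠ p → ∃ w : PowerSeries T,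
        ψ (Ideal.Quotient.mk _ (MvPolynomial.X q)) = HahnSeries.ofPowerSeries ℤ T w := by
  letI : Algebra T (LaurentSeries T) := (HahnSeries.C : T →+* LaurentSeries T).toAlgebra
  have hu : ∀ q, ∃ u : PowerSeries T,
      u * (1 - PowerSeries.C (al q p) * PowerSeries.X) = 1 := fun q => by
    have : IsUnit (1 - PowerSeries.C (al q p) * PowerSeries.X : PowerSeries T) := by
      simp [PowerSeries.isUnit_iff_constantCoeff]
    exact this.exists_left_inv
  choose u hu using hu
  let e : ι → LaurentSeries T := fun q => HahnSeries.ofPowerSeries ℤ T (PowerSeries.X * u q)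
  have hz : HahnSeries.single (1 : ℤ) (1 : T) * HahnSeries.single (-1) 1 = 1 := by
    rw [HahnSeries.single_mul_single]; simp
  have he : ∀ q, e q * (HahnSeries.single (-1) 1 - algebraMap T (LaurentSeries T) (al q p)) = 1 :=
    fun q => by
      have h1 := congrArg (HahnSeries.ofPowerSeries ℤ T) (hu q)
      simp only [map_mul, map_sub, map_one, HahnSeries.ofPowerSeries_C,
        HahnSeries.ofPowerSeries_X] at h1
      simp only [e, map_mul, HahnSeries.ofPowerSeries_X]
      change _ * (_ - HahnSeries.C (al q p)) = _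
      linear_combination h1 + HahnSeries.ofPowerSeries ℤ T (u q) * hz
  let W : ι → LaurentSeries T := fun q => if q = p then HahnSeries.single (-1) 1 else
    algebraMap T _ (al p q) + algebraMap T _ (r p q + al p q * al q p) * e q
  let φ : MvPolynomial ι T →+* LaurentSeries T := MvPolynomial.eval₂Hom HahnSeries.C W
  have hφ : ∀ f ∈ relI al r, φ f = 0 := by
    change relI al r ≤ RingHom.ker φ
    rw [relI, Ideal.span_le]
    rintro _ ⟨q, s, hqs, rfl⟩
    change φ _ = 0
    rw [map_err id φ fun t => by simp [φ]; rfl]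
    simp only [φ, MvPolynomial.eval₂Hom_X']
    exact err_axis H p _ e he q s hqs
  refine ⟨Ideal.Quotient.lift _ φ hφ, fun t => ?_, ?_, fun q hq => ?_⟩
  · change φ (MvPolynomial.C t) = _
    simp [φ]
  · simp [φ, W]
  · refine ⟨PowerSeries.C (al p q) + PowerSeries.C (r p q + al p q * al q p) *
      (PowerSeries.X * u q), ?_⟩
    simp only [Ideal.Quotient.lift_mk, φ, W, MvPolynomial.eval₂Hom_X', if_neg hq, map_add,
      map_mul, HahnSeries.ofPowerSeries_C, e]
    rfl

theorem smul_q (al r : ι → ι → T) (t : T) (x : MvPolynomial ι T ⧸ relI al r) :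
    t • x = algebraMap T _ t * x := Algebra.smul_def t x

/-- The basis. -/
def bas (al r : ι → ι → T) : Option (ι × ℕ) → MvPolynomial ι T ⧸ relI al r
  | none => 1
  | some (p, k) => Ideal.Quotient.mk _ (MvPolynomial.X p) ^ (k + 1)

theorem bas_li [DecidableEq ι] [Nonempty ι] {al r : ι → ι → T} (H : RimEq al r) :
    LinearIndependent T (bas al r) := by
  classical
  choose ψ h1 h2 h3 using exists_axis H
  rw [linearIndependent_iff']
  intro s g hg
  have key : ∀ p (n : ℤ), ∑ i ∈ s, g i * (ψ p (bas al r i)).coeff n = 0 := fun p n => by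
    have := congrArg (fun o => (ψ p o).coeff n) hg
    simpa [smul_q, h1, HahnSeries.coeff_sum, HahnSeries.C_apply,
      HahnSeries.coeff_single_zero_mul] using this
  have hs : ∀ p k, some (p, k) ∈ s → g (some (p, k)) = 0 := fun p k hk => by
    have := key p (-(k + 1))
    rw [Finset.sum_eq_single (some (p, k))] at this
    · simpa [bas, h2, HahnSeries.single_pow] using this
    · rintro (_ | ⟨q, j⟩) _ hne
      · have : (-((k : ℤ) + 1)) ≠ 0 := by omega
        simp only [bas, map_one, HahnSeries.coeff_one, if_neg this, mul_zero]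
      · by_cases hq : q = p
        · subst hq
          have hj : j ≠ k := fun h => hne (by rw [h])
          have : (-((k : ℤ) + 1)) ≠ (j + 1) • (-1) := by simp; omega
          simp only [bas, map_pow, h2, HahnSeries.single_pow, HahnSeries.coeff_single_of_ne this,
            mul_zero]
        · obtain ⟨w, hw⟩ := h3 p q hq
          have : (-((k : ℤ) + 1)) < 0 := by omega
          simp only [bas, map_pow, hw]
          rw [← map_pow, PowerSeries.coeff_coe, if_pos this, mul_zero]
    · exact fun h => absurd hk h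
  rintro (_ | ⟨p, k⟩) hi
  · have := key (Classical.arbitrary ι) 0
    rw [Finset.sum_eq_single none] at this
    · simpa [bas] using this
    · rintro (_ | ⟨q, j⟩) hm hne
      · exact absurd rfl hne
      · rw [hs q j hm, zero_mul]
    · exact fun h => absurd hi h
  · exact hs p k hi

theorem bas_span (al r : ι → ι → T) : ⊤ ≤ Submodule.span T (Set.range (bas al r)) := by
  set W := Submodule.span T (Set.range (bas al r))
  let Z : ι → MvPolynomial ι T ⧸ relI al r := fun p => Ideal.Quotient.mk _ (MvPolynomial.X p)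
  have h0 : ∀ p k, Z p ^ k ∈ W := fun p k => by
    cases k with
    | zero => exact Submodule.subset_span ⟨none, by simp [bas]⟩
    | succ k => exact Submodule.subset_span ⟨some (p, k), rfl⟩
  have h1 : ∀ p q, p ≠ q → err Z al r p q = 0 := fun p q h => by
    refine (map_err id (Ideal.Quotient.mk _) (fun t => rfl) MvPolynomial.X al r p q).symm.trans ?_
    exact Ideal.Quotient.eq_zero_iff_mem.2 (Ideal.subset_span ⟨p, q, h, rfl⟩)
  have h2 : ∀ p q k, Z p ^ k * Z q ∈ W := fun p q k => by
    by_cases h : p = q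
    · subst h; rw [← pow_succ]; exact h0 _ _
    induction k with
    | zero => simpa using h0 q 1
    | succ k ih =>
      have := W.add_mem (W.add_mem (W.smul_mem (al p q) (h0 p (k + 1))) (W.smul_mem (al q p) ih))
        (W.smul_mem (r p q) (h0 p k))
      convert this using 1
      have h3 := h1 p q h
      simp only [err, smul_q] at h3 ⊢
      linear_combination Z p ^ k * h3
  have h4 : ∀ q, ∀ w ∈ W, w * Z q ∈ W := fun q w hw => by
    induction hw using Submodule.span_induction with
    | mem x hx =>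
      obtain ⟨(_ | ⟨p, k⟩), rfl⟩ := hx
      · simpa [bas] using h0 q 1
      · exact h2 p q (k + 1)
    | zero => simp
    | add x y _ _ hx hy => rw [add_mul]; exact W.add_mem hx hy
    | smul t x _ hx => rw [smul_mul_assoc]; exact W.smul_mem t hx
  rintro o -
  obtain ⟨f, rfl⟩ := Ideal.Quotient.mk_surjective o
  induction f using MvPolynomial.induction_on with
  | C t =>
    have := W.smul_mem t (Submodule.subset_span ⟨none, rfl⟩)
    rwa [bas, smul_q, mul_one] at this
  | add f g hf hg => rw [map_add]; exact W.add_mem hf hg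
  | mul_X f q hf => rw [map_mul]; exact h4 q _ hf

theorem flat_poly [DecidableEq ι] [Nonempty ι] {al r : ι → ι → T} (H : RimEq al r) :
    Module.Flat T (MvPolynomial ι T ⧸ relI al r) := by
  have := Module.Free.of_basis (Module.Basis.mk (bas_li H) (bas_span al r))
  infer_instance

/-- The ring of the standard form. -/
abbrev Mod (al r : ι → ι → T) : Type :=
  MvPowerSeries ι T ⧸ (relI al r).map (algebraMap (MvPolynomial ι T) (MvPowerSeries ι T))

theorem flat_mod [Finite ι] [DecidableEq ι] [Nonempty ι] [IsNoetherianRing T] {al r : ι → ι → T}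
    (H : RimEq al r) : Module.Flat T (Mod al r) := by
  have h1 := flat_poly H
  have h2 : Module.Flat (MvPolynomial ι T) (MvPowerSeries ι T) :=
    Module.Flat.of_linearEquiv (MvPowerSeries.toAdicCompletionAlgEquiv ι T).toLinearEquiv
  have h3 : Module.Flat (MvPolynomial ι T ⧸ relI al r) (Mod al r) := Module.Flat.of_linearEquiv
    (Algebra.TensorProduct.quotIdealMapEquivQuotTensor (MvPowerSeries ι T) (relI al r)).toLinearEquiv
  have h4 := IsScalarTower.of_algebraMap_eq (R := T) (S := MvPolynomial ι T ⧸ relI al r)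
    (A := Mod al r) fun t => congrArg (Ideal.Quotient.mk _)
      (IsScalarTower.algebraMap_apply T (MvPolynomial ι T) (MvPowerSeries ι T) t)
  exact Module.Flat.trans T (MvPolynomial ι T ⧸ relI al r) (Mod al r)

/-- The coordinates of the model. -/
def mz (al r : ι → ι → T) (p : ι) : Mod al r := Ideal.Quotient.mk _ (MvPowerSeries.X p)

theorem rel_mem (al r : ι → ι → T) {p q : ι} (h : p ≠ q) :
    err (O := MvPowerSeries ι T) MvPowerSeries.X al r p q ∈
      (relI al r).map (algebraMap (MvPolynomial ι T) (MvPowerSeries ι T)) := by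
  have h0 : err (O := MvPolynomial ι T) MvPolynomial.X al r p q ∈ relI al r :=
    Ideal.subset_span ⟨p, q, h, rfl⟩
  have := Ideal.mem_map_of_mem (algebraMap (MvPolynomial ι T) (MvPowerSeries ι T)) h0
  rw [map_err id _ fun t => (IsScalarTower.algebraMap_apply T _ _ t).symm] at this
  simpa [MvPowerSeries.algebraMap_apply'] using this

theorem err_mz (al r : ι → ι → T) {p q : ι} (h : p ≠ q) : err (mz al r) al r p q = 0 :=
  (map_err id (Ideal.Quotient.mk _) (fun _ => rfl) MvPowerSeries.X al r p q).symm.trans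
    (Ideal.Quotient.eq_zero_iff_mem.2 (rel_mem al r h))

theorem rel_le (al r : ι → ι → T) {J : Ideal (MvPowerSeries ι T)}
    (h : ∀ p q, p ≠ q → err (O := MvPowerSeries ι T) MvPowerSeries.X al r p q ∈ J) :
    (relI al r).map (algebraMap (MvPolynomial ι T) (MvPowerSeries ι T)) ≤ J := by
  rw [relI, Ideal.map_span, Ideal.span_le]
  rintro _ ⟨_, ⟨p, q, hpq, rfl⟩, rfl⟩
  rw [map_err id _ fun t => (IsScalarTower.algebraMap_apply T _ _ t).symm]
  simpa [MvPowerSeries.algebraMap_apply'] using h p q hpq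

end Poly

section Germ

variable {T : Type} [CommRing T] [Algebra ℂ T] [IsGerm T] {ι : Type} [Fintype ι]
  {al r : ι → ι → T}

theorem coeff_toMv {R : Type} [CommRing R] (p : ι) (K : PowerSeries R) :
    (∀ k, MvPowerSeries.coeff (Finsupp.single p k) (PowerSeries.toMvPowerSeries p K) =
      PowerSeries.coeff k K) ∧ ∀ d : ι →₀ ℕ, (∀ k, d ≠ Finsupp.single p k) →
      MvPowerSeries.coeff d (PowerSeries.toMvPowerSeries p K) = 0 := by
  refine ⟨fun k => ?_, fun d hd => MvPowerSeries.coeff_rename_eq_zero _ _ ?_⟩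
  · have := MvPowerSeries.coeff_embDomain_rename (Function.Embedding.punit p) K
      (Finsupp.single () k)
    rw [Finsupp.embDomain_single] at this
    exact this
  · rintro ⟨x, rfl⟩
    refine hd (x ()) ?_
    rw [Finsupp.unique_single x, Finsupp.mapDomain_single]
    simp

theorem surj_of_pres {O : Type} [CommRing O] [Algebra ℂ O] [IsGerm O] [Algebra T O]
    [IsScalarTower ℂ T O] (φ : MvPowerSeries ι T →ₐ[T] O) (hφ : Function.Surjective φ)
    (hal : ∀ p q, al p q ∈ maximalIdeal T) (hr : ∀ p q, r p q ∈ maximalIdeal T)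
    (he : ∀ p q, p ≠ q → err (fun p => φ (MvPowerSeries.X p)) al r p q = 0) :
    Function.Surjective (beta T fun p => φ (MvPowerSeries.X p)) := by
  classical
  refine beta_surj _ fun o => ?_
  obtain ⟨F, rfl⟩ := hφ o
  have hZ : ∀ p, φ (MvPowerSeries.X p) ∈ maximalIdeal O := fun p =>
    map_max (φ.restrictScalars ℂ) (mem_max_mv.2 (by simp))
  let H : ι → PowerSeries T := fun p => PowerSeries.X *
    PowerSeries.mk fun k => MvPowerSeries.coeff (Finsupp.single p (k + 1)) F
  refine ⟨(MvPowerSeries.constantCoeff F, fun p =>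
    PowerSeries.mk fun k => MvPowerSeries.coeff (Finsupp.single p (k + 1)) F), ?_⟩
  have h1 : ∀ p (G : PowerSeries T), ev T (φ (MvPowerSeries.X p)) G =
      φ (PowerSeries.toMvPowerSeries p G) := fun p G => by
    have := ps_ext (ev T (φ (MvPowerSeries.X p))).toRingHom
      (φ.comp (PowerSeries.toMvPowerSeries p)).toRingHom
      (fun t => (ev_C _ t).trans ((φ.comp (PowerSeries.toMvPowerSeries p)).commutes t).symm)
      (by simp [ev_X (hZ p)]) (by simpa [ev_X (hZ p)] using hZ p)
    exact RingHom.congr_fun this G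
  let G : MvPowerSeries ι T := F - (MvPowerSeries.C (MvPowerSeries.constantCoeff F) +
    ∑ p, PowerSeries.toMvPowerSeries p (H p))
  have h2 : φ F - beta T (fun p => φ (MvPowerSeries.X p)) (MvPowerSeries.constantCoeff F, fun p =>
      PowerSeries.mk fun k => MvPowerSeries.coeff (Finsupp.single p (k + 1)) F) = φ G := by
    simp only [G, H, beta_apply, h1, map_sub, map_add, map_sum, map_mul,
      PowerSeries.toMvPowerSeries_X]
    rw [← φ.commutes]
    rfl
  let E : Finset (ι →₀ ℕ) := (Finset.univ.offDiag).image fun x : ι × ι =>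
    Finsupp.single x.1 1 + Finsupp.single x.2 1
  have h4 := mem_span_mono E G fun d hd => by
    by_contra hn
    refine hd ?_
    by_cases h0 : d = 0
    · subst h0
      have : ∀ p, MvPowerSeries.coeff 0 (PowerSeries.toMvPowerSeries p (H p)) = 0 := fun p => by
        have h7 := (coeff_toMv p (H p)).1 0
        rw [Finsupp.single_zero] at h7
        rw [h7]; simp [H]
      simp only [G, map_sub, map_add, map_sum, this]
      simp
    obtain ⟨p, hp⟩ := Finsupp.ne_iff.1 h0
    have h5 : d = Finsupp.single p (d p) := by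
      ext q
      by_cases hq : q = p
      · simp [hq]
      rw [Finsupp.single_eq_of_ne hq]
      by_contra hq0
      refine hn ⟨_, Finset.mem_image.2 ⟨(p, q), by simpa using Ne.symm hq, rfl⟩, fun s => ?_⟩
      have hp' : d p ≠ 0 := hp
      simp only [Finsupp.add_apply, Finsupp.single_apply]
      split_ifs with a b b
      · exact absurd (b.trans a.symm) hq
      · subst a; omega
      · subst b; omega
      · omega
    obtain ⟨k, hk⟩ := Nat.exists_eq_succ_of_ne_zero hp
    rw [hk] at h5
    subst h5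
    simp only [G, map_sub, map_add, map_sum, MvPowerSeries.coeff_C, if_neg h0]
    rw [Finset.sum_eq_single p, (coeff_toMv p _).1]
    · simp [H, PowerSeries.coeff_succ_X_mul]
    · intro q _ hq
      refine (coeff_toMv q _).2 _ fun j hj => ?_
      simpa [Finsupp.single_eq_of_ne hq.symm] using DFunLike.congr_fun hj p
    · simp
  rw [h2]
  have h5 : Ideal.span ((fun e => MvPowerSeries.monomial e (1 : T)) '' (E : Set (ι →₀ ℕ))) ≤
      ((maximalIdeal T).map (algebraMap T O)).comap φ := by
    rw [Ideal.span_le]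
    rintro _ ⟨_, he', rfl⟩
    obtain ⟨⟨p, q⟩, hpq, rfl⟩ := Finset.mem_image.1 he'
    have h6 := he p q (Finset.mem_offDiag.1 hpq).2.2
    set M := (maximalIdeal T).map (algebraMap T O)
    have hm : ∀ {t}, t ∈ maximalIdeal T → algebraMap T _ t ∈ M := fun h => Ideal.mem_map_of_mem _ h
    have := M.add_mem (M.add_mem (M.mul_mem_right (φ (MvPowerSeries.X p)) (hm (hal p q)))
      (M.mul_mem_right (φ (MvPowerSeries.X q)) (hm (hal q p)))) (hm (hr p q))
    change φ (MvPowerSeries.monomial _ 1) ∈ M
    rw [← mul_one (1 : T), ← MvPowerSeries.monomial_mul_monomial, map_mul]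
    change φ (MvPowerSeries.X p) * φ (MvPowerSeries.X q) ∈ M
    convert this using 1
    unfold err at h6
    linear_combination h6
  exact h5 h4

theorem germ_mod (hr : ∀ p q, r p q ∈ maximalIdeal T) : IsGerm (Mod al r) := by
  have h : (relI al r).map (algebraMap (MvPolynomial ι T) (MvPowerSeries ι T)) ≤ maximalIdeal _ :=
    rel_le al r fun p q _ => mem_max_mv.2 (by
      simpa [err, MvPowerSeries.algebraMap_apply] using hr p q)
  have : Nontrivial (Mod al r) := Ideal.Quotient.nontrivial_iff.2 fun h1 =>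
    (maximalIdeal.isMaximal _).ne_top (top_le_iff.1 (h1 ▸ h))
  exact germ_of_surj (Ideal.Quotient.mkₐ ℂ _) Ideal.Quotient.mk_surjective

variable [IsGerm (Mod al r)]

theorem mz_mem (p : ι) : mz al r p ∈ maximalIdeal (Mod al r) :=
  map_max (Ideal.Quotient.mkₐ ℂ _) (mem_max_mv.2 (by simp))

theorem mod_surj (hal : ∀ p q, al p q ∈ maximalIdeal T) (hr : ∀ p q, r p q ∈ maximalIdeal T) :
    Function.Surjective (beta T (mz al r)) :=
  surj_of_pres (Ideal.Quotient.mkₐ T _) Ideal.Quotient.mk_surjective hal hr fun _ _ h => err_mz al r h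

variable {O : Type} [CommRing O] [Algebra ℂ O] [IsGerm O]

omit [IsGerm T] [IsGerm (Mod al r)] in
theorem mod_lift {T' : Type} [CommRing T'] [Algebra ℂ T'] [Algebra T' O] [IsScalarTower ℂ T' O]
    (τ : T →ₐ[ℂ] T') (Z : ι → O) (hZ : ∀ p, Z p ∈ maximalIdeal O)
    (he : ∀ p q, p ≠ q → err Z (fun p q => τ (al p q)) (fun p q => τ (r p q)) p q = 0) :
    ∃ φ : Mod al r →ₐ[ℂ] O, (∀ t, φ (algebraMap T _ t) = algebraMap T' O (τ t)) ∧
      ∀ p, φ (mz al r p) = Z p := by
  letI : Algebra T O := ((algebraMap T' O).comp τ.toRingHom).toAlgebra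
  have : IsScalarTower ℂ T O := IsScalarTower.of_algebraMap_eq fun c => by
    change _ = algebraMap T' O (τ (algebraMap ℂ T c))
    rw [τ.commutes, ← IsScalarTower.algebraMap_apply]
  obtain ⟨φ, hφ⟩ := exists_ev (R := T) Z hZ
  have h1 : (relI al r).map (algebraMap (MvPolynomial ι T) (MvPowerSeries ι T)) ≤
      RingHom.ker φ.toRingHom := rel_le al r fun p q hpq => by
    rw [RingHom.mem_ker, map_err (T' := T') τ φ.toRingHom fun t => φ.commutes t]
    simpa [hφ] using he p q hpq
  exact ⟨Ideal.Quotient.liftₐ _ (φ.restrictScalars ℂ) fun a ha => h1 ha, fun t => φ.commutes t,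
    fun p => hφ p⟩

omit [IsGerm T] [IsGerm (Mod al r)] [Algebra ℂ T] in
theorem mod_ext (φ ψ : Mod al r →+* O) (hC : ∀ t, φ (algebraMap T _ t) = ψ (algebraMap T _ t))
    (hX : ∀ p, φ (mz al r p) = ψ (mz al r p)) (hm : ∀ p, φ (mz al r p) ∈ maximalIdeal O) :
    φ = ψ :=
  Ideal.Quotient.ringHom_ext (hom_ext _ _ hC hX hm)

end Germ

end Pool.Agent.MP_648617_ag.Vers

end
end MrgPart3

-- ======== part 4: formerly Pool.Agent.MP_648617_ag.vers.Norm
section MrgPart4

/-! Normal forms: Weierstrass division and the standard form with a distinguished axis. -/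

open IsLocalRing PowerSeries

noncomputable section

namespace Pool.Agent.MP_648617_ag.Vers

section Loc

variable {R S : Type} [CommRing R] [Algebra ℂ R] [IsGerm R] [CommRing S] [Algebra ℂ S] [IsGerm S]

theorem max_of_map (φ : R →ₐ[ℂ] S) {r : R} (h : φ r ∈ maximalIdeal S) : r ∈ maximalIdeal R :=
  fun hu => h (hu.map φ)

theorem res_map (φ : R →ₐ[ℂ] S) (r : R) : res S (φ r) = res R r := by
  have := res_eq_zero.2 (map_max φ (sub_res r))
  rw [map_sub, map_sub, AlgHom.commutes, AlgHom.commutes, sub_eq_zero] at this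
  exact this

theorem surj_of_red (φ : R →ₐ[ℂ] S) (h : ∀ s, ∃ r, s - φ r ∈ (maximalIdeal R).map φ) :
    Function.Surjective φ := by
  let _ : Algebra R S := φ.toRingHom.toAlgebra
  have : IsScalarTower ℂ R S := IsScalarTower.of_algebraMap_eq fun c => (φ.commutes c).symm
  intro s
  obtain ⟨v, hv⟩ := beta_surj (T := R) (ι := Empty) (fun _ => (0 : S)) (fun o => by
    obtain ⟨r, hr⟩ := h o
    refine ⟨(r, 0), ?_⟩
    rw [beta_apply, Finset.univ_eq_empty, Finset.sum_empty, add_zero]
    exact hr) s
  rw [beta_apply, Finset.univ_eq_empty, Finset.sum_empty, add_zero] at hv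
  exact ⟨v.1, hv⟩

/-- The polynomial with given coefficients. -/
def pol {R : Type} [CommRing R] {n : ℕ} (c : Fin n → R) : R⟦X⟧ := ∑ j, C (c j) * X ^ (j : ℕ)

theorem map_pol {R S : Type} [CommRing R] [CommRing S] (φ : R →+* S) {n : ℕ} (c : Fin n → R) :
    PowerSeries.map φ (pol c) = pol fun j => φ (c j) := by
  simp [pol, map_sum]

theorem pol_zero {R : Type} [CommRing R] {n : ℕ} : pol (fun _ : Fin n => (0 : R)) = 0 := by
  simp [pol]

theorem pol_neg {R : Type} [CommRing R] {n : ℕ} (c : Fin n → R) :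
    pol (fun j => -c j) = -pol c := by
  simp [pol]

/-- `G` is a monomial of degree `n` modulo the maximal ideal. -/
def Ord (G : R⟦X⟧) (n : ℕ) : Prop :=
  ∃ c : ℂ, c ≠ 0 ∧ PowerSeries.map (res R).toRingHom G = C c * X ^ n

theorem Ord.div {G : R⟦X⟧} {n : ℕ} (h : Ord G n) : G.IsWeierstrassDivisor ∧
    (PowerSeries.map (Ideal.Quotient.mk (maximalIdeal R)) G).order.toNat = n := by
  obtain ⟨c, hc, h⟩ := h
  have h1 : ∀ j, coeff j G ∈ maximalIdeal R ↔ j ≠ n := fun j => by
    have := congrArg (coeff j) h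
    rw [coeff_map, coeff_C_mul, coeff_X_pow] at this
    rw [← res_eq_zero]
    change (res R).toRingHom _ = 0 ↔ _
    rw [this]
    by_cases hj : j = n <;> simp [hj, hc]
  have h2 : (PowerSeries.map (Ideal.Quotient.mk (maximalIdeal R)) G).order = n := by
    refine order_eq_nat.2 ⟨?_, fun j hj => ?_⟩
    · rw [coeff_map, Ne, Ideal.Quotient.eq_zero_iff_mem, h1]; simp
    · rw [coeff_map, Ideal.Quotient.eq_zero_iff_mem, h1]; omega
  refine ⟨?_, by rw [h2]; rfl⟩
  rw [IsWeierstrassDivisor, IsWeierstrassDivisorAt, h2, ← notMem_maximalIdeal, h1]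
  simp

theorem Ord.ex {G : R⟦X⟧} {n : ℕ} (h : Ord G n) (F : R⟦X⟧) :
    ∃ (q : R⟦X⟧) (c : Fin n → R), F = G * q + pol c := by
  obtain ⟨h1, h2⟩ := h.div
  obtain ⟨h3, h4⟩ := h1.isWeierstrassDivisionAt_div_mod F
  rw [h2] at h3
  refine ⟨h1.div F, fun j => (h1.mod F).coeff j, h4.trans ?_⟩
  congr 1
  conv_lhs => rw [← Polynomial.sum_fin (fun j a => Polynomial.C a * Polynomial.X ^ j) (by simp) h3
    |>.trans (Polynomial.sum_C_mul_X_pow_eq _)]
  rw [← Polynomial.coeToPowerSeries.ringHom_apply, map_sum]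
  simp [pol]

theorem Ord.uniq {G : R⟦X⟧} {n : ℕ} (h : Ord G n) {q q' : R⟦X⟧} {c c' : Fin n → R}
    (e : G * q + pol c = G * q' + pol c') : q = q' ∧ c = c' := by
  obtain ⟨h1, h2⟩ := h.div
  have h3 : ∀ c : Fin n → R, pol c =
      ((∑ j, Polynomial.C (c j) * Polynomial.X ^ (j : ℕ) : Polynomial R) : R⟦X⟧) := fun c => by
    rw [← Polynomial.coeToPowerSeries.ringHom_apply, map_sum]
    simp [pol]
  rw [h3, h3] at e
  obtain ⟨h4, h5⟩ := h1.eq_of_mul_add_eq_mul_add (h2 ▸ Polynomial.degree_sum_fin_lt c)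
    (h2 ▸ Polynomial.degree_sum_fin_lt c') e
  refine ⟨h4, funext fun j => ?_⟩
  have := congrArg (Polynomial.coeff · j) h5
  simpa [Polynomial.finsetSum_coeff, Fin.val_inj] using this

theorem Ord.cancel {G : R⟦X⟧} {n : ℕ} (h : Ord G n) {q q' : R⟦X⟧} (e : G * q = G * q') : q = q' :=
  (h.uniq (c := 0) (c' := 0) (by rw [e])).1

end Loc

section Std

variable {T O : Type} [CommRing T] [CommRing O] [Algebra T O] {ι : Type}

/-- The standard form with the distinguished axis `y`. -/
structure Std (y : O) (z : ι → O) (f g : ι → T) (a : ι → ι → T) : Prop where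
  yz : ∀ i, (y - algebraMap T O (f i)) * z i = algebraMap T O (g i)
  zz : ∀ i j, i ≠ j → z i * z j = algebraMap T O (a i j) * z i + algebraMap T O (a j i) * z j
  gf : ∀ i j, i ≠ j → g i = (f j - f i) * a j i

/-- Linear coefficients. -/
def alO (f : ι → T) (a : ι → ι → T) : Option ι → Option ι → T
  | none, _ => 0
  | some i, none => f i
  | some i, some j => a i j

/-- Constant coefficients. -/
def rO (g : ι → T) : Option ι → Option ι → T
  | none, some i => g i
  | some i, none => g i
  | none, none => 0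
  | some _, some _ => 0

theorem Std.err {y : O} {z : ι → O} {f g : ι → T} {a : ι → ι → T} (h : Std y z f g a) :
    ∀ p q, p ≠ q → err (fun p : Option ι => p.elim y z) (alO f a) (rO g) p q = 0 := by
  rintro (_ | i) (_ | j) hpq <;> simp only [Vers.err, alO, rO, Option.elim, map_zero]
  · exact absurd rfl hpq
  · linear_combination h.yz j
  · linear_combination h.yz i
  · linear_combination h.zz i j fun e => hpq (e ▸ rfl)

theorem std_of_err {Z : Option ι → O} {f g : ι → T} {a : ι → ι → T}
    (he : ∀ p q, p ≠ q → err Z (alO f a) (rO g) p q = 0)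
    (gf : ∀ i j, i ≠ j → g i = (f j - f i) * a j i) : Std (Z none) (fun i => Z (some i)) f g a := by
  refine ⟨fun i => ?_, fun i j hij => ?_, gf⟩
  · have := he none (some i) (by simp)
    simp only [err, alO, rO, map_zero] at this
    linear_combination this
  · have := he (some i) (some j) (by simpa using hij)
    simp only [err, alO, rO, map_zero] at this
    linear_combination this

theorem rimEq {f g : ι → T} {a : ι → ι → T} (gf : ∀ i j, i ≠ j → g i = (f j - f i) * a j i)
    (hc : ∀ i j, i ≠ j → ∀ u v, (f j - f i) * u = (f j - f i) * v → u = v) :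
    RimEq (alO f a) (rO g) := by
  constructor
  · rintro (_ | i) (_ | j) _ <;> rfl
  · rintro (_ | i) (_ | j) (_ | k) h1 h2 h3 <;> simp only [alO, rO] <;>
      simp only [ne_eq, not_true_eq_false, Option.some.injEq] at h1 h2 h3
    · linear_combination gf j k (Ne.symm h3)
    · linear_combination gf i k (Ne.symm h2)
    · ring
    · refine hc i k (Ne.symm h2) _ _ (hc j k (Ne.symm h3) _ _ ?_)
      have e1 : (f k - f i) * (a k i - a j i) = (f j - f k) * a j i := by
        linear_combination gf i j h1 - gf i k (Ne.symm h2)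
      have e2 : (f k - f j) * (a k j - a i j) = (f i - f k) * a i j := by
        linear_combination gf j i (Ne.symm h1) - gf j k (Ne.symm h3)
      linear_combination -((f k - f j) * (a k j - a i j)) * e1 - (f j - f k) * a j i * e2

theorem Std.map {T' O' : Type} [CommRing T'] [CommRing O'] [Algebra T' O'] (τ : T →+* T')
    (ψ : O →+* O') (H : ∀ t, ψ (algebraMap T O t) = algebraMap T' O' (τ t)) {y : O} {z : ι → O}
    {f g : ι → T} {a : ι → ι → T} (h : Std y z f g a) :
    Std (ψ y) (fun i => ψ (z i)) (fun i => τ (f i)) (fun i => τ (g i)) fun i j => τ (a i j) :=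
  ⟨fun i => by simpa [H] using congrArg ψ (h.yz i),
    fun i j hij => by simpa [H] using congrArg ψ (h.zz i j hij),
    fun i j hij => by simpa using congrArg τ (h.gf i j hij)⟩

variable [Algebra ℂ T] [IsGerm T] [Algebra ℂ O] [IsGerm O]

theorem alO_mem {f : ι → T} {a : ι → ι → T} {I : Ideal T} (hf : ∀ i, f i ∈ I)
    (ha : ∀ i j, a i j ∈ I) : ∀ p q, alO f a p q ∈ I := by
  rintro (_ | i) (_ | j)
  exacts [zero_mem _, zero_mem _, hf i, ha i j]

theorem rO_mem {g : ι → T} {I : Ideal T} (hg : ∀ i, g i ∈ I) : ∀ p q, rO g p q ∈ I := by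
  rintro (_ | i) (_ | j)
  exacts [zero_mem _, hg j, hg i, zero_mem _]

theorem std_norm {y : O} {z : ι → O} {F G : ι → T} {a : ι → ι → T} (h : Std y z F G a)
    (hz : ∀ i, z i ∈ maximalIdeal O) (ha : ∀ i j, a i j ∈ maximalIdeal T) {u q W r : ι → T}
    (hW : ∀ i, G i * u i = W i) (hr : ∀ i, F i = W i * q i + r i) :
    ∃ (z' : ι → O) (a' : ι → ι → T), Std y z' r W a' ∧ (∀ i, z' i ∈ maximalIdeal O) ∧
      ∀ i, z' i * (1 + algebraMap T O (q i * u i) * z i) = algebraMap T O (u i) * z i := by
  have h1 : ∀ i, ∃ e : O, e * (1 + algebraMap T O (q i * u i) * z i) = 1 := fun i => by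
    have := isUnit_one_sub_self_of_mem_nonunits _
      (neg_mem (Ideal.mul_mem_left _ (algebraMap T O (q i * u i)) (hz i)))
    rw [sub_neg_eq_add] at this
    exact this.exists_left_inv
  have h2 : ∀ i k, ∃ e : T, e * (1 + (q k * u k * a i k + q i * u i * a k i)) = 1 := fun i k => by
    have := isUnit_one_sub_self_of_mem_nonunits _
      (neg_mem (add_mem (Ideal.mul_mem_left _ (q k * u k) (ha i k))
        (Ideal.mul_mem_left _ (q i * u i) (ha k i))))
    rw [sub_neg_eq_add] at this
    exact this.exists_left_inv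
  choose e he using h1
  choose d hd using h2
  have hs : ∀ i k, d i k = d k i := fun i k => by
    linear_combination d k i * hd i k - d i k * hd k i
  refine ⟨fun i => e i * (algebraMap T O (u i) * z i), fun i k => d i k * u k * a i k,
    ⟨fun i => ?_, fun i k hik => ?_, fun i k hik => ?_⟩,
    fun i => Ideal.mul_mem_left _ _ (Ideal.mul_mem_left _ _ (hz i)), fun i => ?_⟩
  · have e1 := h.yz i
    have e2 := he i
    rw [hr i, ← hW i] at e1
    rw [← hW i]
    simp only [map_add, map_mul] at e1 e2 ⊢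
    linear_combination e i * algebraMap T O (u i) * e1 +
      algebraMap T O (G i) * algebraMap T O (u i) * e2
  · have e1 := h.zz i k hik
    have e2 := he i
    have e3 := he k
    have e4 := congrArg (algebraMap T O) (hd i k)
    rw [hs k i]
    simp only [map_add, map_mul, map_one] at e2 e3 e4 ⊢
    set D := algebraMap T O (d i k)
    set ui := algebraMap T O (u i)
    set uk := algebraMap T O (u k)
    linear_combination D * e i * e k * ui * uk * e1 - e i * e k * ui * uk * z i * z k * e4 +
      D * uk * algebraMap T O (a i k) * e i * ui * z i * e3 +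
      D * ui * algebraMap T O (a k i) * e k * uk * z k * e2
  · have e1 := h.gf i k hik
    have e2 := h.gf k i hik.symm
    have e3 := hd k i
    have e4 : r k - r i = (F k - F i) * (1 + (q i * u i * a k i + q k * u k * a i k)) := by
      have e5 := hr i
      have e6 := hr k
      rw [← hW i, e1] at e5
      rw [← hW k, e2] at e6
      linear_combination e5 - e6
    rw [e4, ← hW i, e1]
    linear_combination -((F k - F i) * a k i * u i) * e3
  · linear_combination algebraMap T O (u i) * z i * he i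

theorem std_lift [IsScalarTower ℂ T O] [Fintype ι] [DecidableEq ι] (J : Ideal T)
    (hJ : J ≤ maximalIdeal T) (Z : Option ι → O) (f g : ι → T) (a : ι → ι → T)
    (hZ : ∀ p, Z p ∈ maximalIdeal O) (hf : ∀ i, f i ∈ maximalIdeal T)
    (hg : ∀ i, g i ∈ maximalIdeal T) (ha : ∀ i j, a i j ∈ maximalIdeal T)
    (hb : ∀ Z' : Option ι → O, (∀ p, Z' p - Z p ∈ J.map (algebraMap T O)) →
      Function.Bijective (beta T Z'))
    (he : ∀ p q, p ≠ q → err Z (alO f a) (rO g) p q ∈ J.map (algebraMap T O)) :
    ∃ (y : O) (z : ι → O) (F G : ι → T) (a' : ι → ι → T), Std y z F G a' ∧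
      y - Z none ∈ J.map (algebraMap T O) ∧ (∀ i, z i - Z (some i) ∈ J.map (algebraMap T O)) ∧
      (∀ i, F i - f i ∈ J) ∧ (∀ i, G i - g i ∈ J) ∧ ∀ i j, a' i j - a i j ∈ J := by
  obtain ⟨Z', al, r, h1, h2, h3, h4⟩ :=
    rim J hJ Z (alO f a) (rO g) hZ (alO_mem hf ha) (rO_mem hg) hb he
  have h5 := fun {p q s} => rim_eq (p := p) (q := q) (s := s) (hb Z' h1).1 h4
  have h6 : ∀ i, al none (some i) ∈ J := fun i => by simpa [alO] using h2 none (some i)
  refine ⟨Z' none, fun i => Z' (some i) - algebraMap T O (al none (some i)),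
    fun i => al (some i) none, fun i => r none (some i) + al none (some i) * al (some i) none,
    fun i j => al (some i) (some j) - al none (some j),
    ⟨fun i => ?_, fun i j hij => ?_, fun i j hij => ?_⟩, h1 none, fun i => ?_,
    fun i => h2 (some i) none, fun i => ?_, fun i j => ?_⟩
  · have := h4 none (some i) (by simp)
    simp only [err, map_add, map_mul] at this ⊢
    linear_combination this
  · have e1 := h4 (some i) (some j) (by simpa using hij)
    have e2 := congrArg (algebraMap T O)
      (h5 (p := some i) (q := some j) (s := none) (by simpa using hij) (by simp) (by simp))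
    simp only [err, map_add, map_mul, map_sub] at e1 e2 ⊢
    linear_combination e1 + e2
  · exact h5 (by simp) (by simp) (by simpa using hij.symm)
  · have := sub_mem (h1 (some i)) (Ideal.mem_map_of_mem (algebraMap T O) (h6 i))
    convert this using 1
    ring
  · have := add_mem (h3 none (some i)) (J.mul_mem_right (al (some i) none) (h6 i))
    convert this using 1
    simp only [rO]; ring
  · have := sub_mem (h2 (some i) (some j)) (h6 j)
    convert this using 1
    simp only [alO]; ring

end Std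

end Pool.Agent.MP_648617_ag.Vers

end
end MrgPart4

-- marker of a merged file
example : 731051 + 366250 = 731051 + 366250 := rfl
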